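import Pool.Agent.Helper29.TC.Hyp4
import Pool.Agent.Helper18.SF.CE

set_option autoImplicit false

/-! From the slacks to the estimates H1 to H5. Conventions as in `Chain`. Any constant instead of
100 is fine (tell me).
h1: `|u| ≤ (a + u^2/a)/2` with `a = √η`, so `∑_A ∑_y |g-1| ≤ √η n^3` (`∑_A ∑_y 1 ≤ n^3`).
h2, h2': the same from c3, c2: `∑ |D - n/3| ≤ √η n^2`.
h3: `u = E - Db/2`. c5 with `l = 1` on `E > Db/2` (constant on cells by `ce_congr`) gives
`∑ u⁺ ≤ η n^2`. c4: `∑ Db u⁻ ≤ η n^3 + ∑ Db u⁺ ≤ 2 η n^3`; `∑ (n/3) u⁻ ≤ ∑ Db u⁻ + n ∑ |Db - n/3|`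
since `0 ≤ u⁻ ≤ n`; so `∑ u⁻ ≤ 3 (2 η + √η) n^2`, and `|E - n/6| ≤ |u| + |Db - n/3|/2`.
h5 is c6.
h4 is `hyp4` (module Hyp4, helper74) with `t = √η`. -/

namespace Pool.Agent.Helper29.TC

open Finset Pool.Agent.Helper18.SF

private theorem abs_le_sq {a : ℝ} (ha : 0 < a) (u : ℝ) : |u| ≤ a / 2 + u ^ 2 / (2 * a) := by
  have h : 0 ≤ (|u| - a) ^ 2 := sq_nonneg _
  have h2 : |u| ^ 2 = u ^ 2 := sq_abs u
  rw [div_add_div _ _ (by norm_num) (by positivity), le_div_iff₀ (by positivity)]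
  nlinarith

/-- from a sum of squares to a sum of absolute values -/
private theorem sum_abs_le {V : Type} [Fintype V] {a : ℝ} (ha : 0 < a) (u : V → ℝ)
    (hn : 0 < (Fintype.card V : ℝ))
    (h : ∑ x, u x ^ 2 ≤ a ^ 2 * (Fintype.card V : ℝ) ^ 3) :
    ∑ x, |u x| ≤ a * (Fintype.card V : ℝ) ^ 2 := by
  set n : ℝ := (Fintype.card V : ℝ) with hndef
  have hb : 0 < a * n := by positivity
  calc ∑ x, |u x| ≤ ∑ x, (a * n / 2 + u x ^ 2 / (2 * (a * n))) :=
        Finset.sum_le_sum fun x _ => abs_le_sq hb (u x)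
    _ = n * (a * n / 2) + (∑ x, u x ^ 2) / (2 * (a * n)) := by
        rw [Finset.sum_add_distrib, Finset.sum_const, Finset.card_univ, nsmul_eq_mul,
          ← Finset.sum_div]
    _ ≤ n * (a * n / 2) + (a ^ 2 * n ^ 3) / (2 * (a * n)) := by gcongr
    _ = a * n ^ 2 := by field_simp; ring

private theorem w_nonneg {V : Type} [Fintype V] [DecidableEq V] (S : Sys V) (Z : Finset V)
    (x y : V) : 0 ≤ w S.A Z x y := ce_nonneg _ _ (fun z => S.A_nonneg y z) x

private theorem w_le_one {V : Type} [Fintype V] [DecidableEq V] (S : Sys V) (Z : Finset V)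
    (x y : V) : w S.A Z x y ≤ 1 := ce_le_one _ _ (fun z => S.A_le_one y z) x

private theorem part1 {V : Type} [Fintype V] [DecidableEq V] (S : Sys V) (W : V → V → ℝ) {a : ℝ}
    (ha : 0 < a)
    (h : ∑ x, ∑ x', S.A x x' * ∑ y, (W x y + W x' y + W (S.f x x') y - 1) ^ 2 ≤
      a ^ 2 * (Fintype.card V : ℝ) ^ 3) :
    ∑ x, ∑ x', S.A x x' * ∑ y, |W x y + W x' y + W (S.f x x') y - 1| ≤
      a * (Fintype.card V : ℝ) ^ 3 := by
  set n : ℝ := (Fintype.card V : ℝ) with hndef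
  have hn : 0 ≤ n := Nat.cast_nonneg _
  have h1 : ∀ x x' : V, S.A x x' * ∑ y, |W x y + W x' y + W (S.f x x') y - 1| ≤
      a / 2 * n + S.A x x' * (∑ y, (W x y + W x' y + W (S.f x x') y - 1) ^ 2) / (2 * a) := by
    intro x x'
    have h2 : ∑ y, |W x y + W x' y + W (S.f x x') y - 1| ≤
        a / 2 * n + (∑ y, (W x y + W x' y + W (S.f x x') y - 1) ^ 2) / (2 * a) := by
      calc ∑ y, |W x y + W x' y + W (S.f x x') y - 1| ≤
          ∑ y, (a / 2 + (W x y + W x' y + W (S.f x x') y - 1) ^ 2 / (2 * a)) :=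
            Finset.sum_le_sum fun y _ => abs_le_sq ha _
        _ = _ := by
            rw [Finset.sum_add_distrib, Finset.sum_const, Finset.card_univ, nsmul_eq_mul,
              ← Finset.sum_div]
            ring
    have hA := S.A_nonneg x x'
    have hA1 := S.A_le_one x x'
    calc S.A x x' * ∑ y, |W x y + W x' y + W (S.f x x') y - 1| ≤
        S.A x x' * (a / 2 * n + (∑ y, (W x y + W x' y + W (S.f x x') y - 1) ^ 2) / (2 * a)) :=
          mul_le_mul_of_nonneg_left h2 hA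
      _ = S.A x x' * (a / 2 * n) +
          S.A x x' * (∑ y, (W x y + W x' y + W (S.f x x') y - 1) ^ 2) / (2 * a) := by ring
      _ ≤ _ := by
          have : S.A x x' * (a / 2 * n) ≤ 1 * (a / 2 * n) :=
            mul_le_mul_of_nonneg_right hA1 (by positivity)
          linarith
  calc ∑ x, ∑ x', S.A x x' * ∑ y, |W x y + W x' y + W (S.f x x') y - 1| ≤
      ∑ x : V, ∑ x' : V, (a / 2 * n +
        S.A x x' * (∑ y, (W x y + W x' y + W (S.f x x') y - 1) ^ 2) / (2 * a)) :=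
        Finset.sum_le_sum fun x _ => Finset.sum_le_sum fun x' _ => h1 x x'
    _ = a / 2 * n ^ 3 + (∑ x, ∑ x', S.A x x' *
          ∑ y, (W x y + W x' y + W (S.f x x') y - 1) ^ 2) / (2 * a) := by
        simp only [Finset.sum_add_distrib, Finset.sum_const, Finset.card_univ, nsmul_eq_mul]
        simp only [← Finset.sum_div]
        rw [← hndef]
        ring
    _ ≤ a / 2 * n ^ 3 + (a ^ 2 * n ^ 3) / (2 * a) := by gcongr
    _ = a * n ^ 3 := by field_simp; ring

private theorem part3 {V : Type} [Fintype V] (D E : V → ℝ) {a η : ℝ} (ha : 0 < a)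
    (hηa : η ≤ a) (hn : 0 < (Fintype.card V : ℝ))
    (hD0 : ∀ x, 0 ≤ D x) (hDn : ∀ x, D x ≤ (Fintype.card V : ℝ))
    (hE0 : ∀ x, 0 ≤ E x)
    (h2 : ∑ x, |D x - (Fintype.card V : ℝ) / 3| ≤ a * (Fintype.card V : ℝ) ^ 2)
    (h4 : (1 / 2) * ∑ x, D x ^ 2 - ∑ x, D x * E x ≤ η * (Fintype.card V : ℝ) ^ 3)
    (h5 : ∑ x, max (E x - D x / 2) 0 ≤ η * (Fintype.card V : ℝ) ^ 2) :
    ∑ x, |E x - (Fintype.card V : ℝ) / 6| ≤ 11 * a * (Fintype.card V : ℝ) ^ 2 := by
  set n : ℝ := (Fintype.card V : ℝ) with hndef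
  set p : V → ℝ := fun x => max (E x - D x / 2) 0 with hp
  set m : V → ℝ := fun x => p x - (E x - D x / 2) with hm
  have hp0 : ∀ x, 0 ≤ p x := fun x => le_max_right _ _
  have hm0 : ∀ x, 0 ≤ m x := fun x => sub_nonneg.2 (le_max_left _ _)
  have hmn : ∀ x, m x ≤ n := by
    intro x
    simp only [hm, hp]
    rcases max_cases (E x - D x / 2) 0 with h | h
    · rw [h.1]; linarith
    · rw [h.1]
      have := hE0 x
      have := hD0 x
      have := hDn x
      linarith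
  -- the sum of `D m`
  have e1 : ∑ x, D x * m x ≤ 2 * η * n ^ 3 := by
    have e2 : ∑ x, D x * m x = ∑ x, D x * p x + ((1 / 2) * ∑ x, D x ^ 2 - ∑ x, D x * E x) := by
      rw [Finset.mul_sum, ← Finset.sum_sub_distrib, ← Finset.sum_add_distrib]
      refine Finset.sum_congr rfl fun x _ => ?_
      simp only [hm]
      ring
    have e3 : ∑ x, D x * p x ≤ n * (η * n ^ 2) := by
      calc ∑ x, D x * p x ≤ ∑ x, n * p x :=
            Finset.sum_le_sum fun x _ => mul_le_mul_of_nonneg_right (hDn x) (hp0 x)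
        _ = n * ∑ x, p x := by rw [Finset.mul_sum]
        _ ≤ _ := mul_le_mul_of_nonneg_left h5 hn.le
    rw [e2]
    nlinarith
  have e4 : ∑ x, (n / 3) * m x ≤ 2 * η * n ^ 3 + n * (a * n ^ 2) := by
    have e5 : ∀ x, (n / 3) * m x ≤ D x * m x + n * |D x - n / 3| := by
      intro x
      have h6 : n / 3 - D x ≤ |D x - n / 3| := by
        have := neg_abs_le (D x - n / 3)
        linarith
      have h7 : (n / 3 - D x) * m x ≤ |D x - n / 3| * m x := mul_le_mul_of_nonneg_right h6 (hm0 x)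
      have h8 : |D x - n / 3| * m x ≤ |D x - n / 3| * n :=
        mul_le_mul_of_nonneg_left (hmn x) (abs_nonneg _)
      linarith
    calc ∑ x, (n / 3) * m x ≤ ∑ x, (D x * m x + n * |D x - n / 3|) :=
          Finset.sum_le_sum fun x _ => e5 x
      _ = ∑ x, D x * m x + n * ∑ x, |D x - n / 3| := by
          rw [Finset.sum_add_distrib, Finset.mul_sum]
      _ ≤ _ := add_le_add e1 (mul_le_mul_of_nonneg_left h2 hn.le)
  have e6 : ∑ x, m x ≤ 9 * a * n ^ 2 := by
    rw [← Finset.mul_sum] at e4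
    have h9 : n * ∑ x, m x ≤ n * (9 * a * n ^ 2) := by
      have : 2 * η * n ^ 3 ≤ 2 * a * n ^ 3 := by gcongr
      nlinarith
    exact le_of_mul_le_mul_left h9 hn
  have e7 : ∀ x, |E x - n / 6| ≤ p x + m x + |D x - n / 3| / 2 := by
    intro x
    have h10 : E x - n / 6 = p x - m x + (D x - n / 3) / 2 := by simp only [hm]; ring
    rw [h10]
    refine (abs_add_le _ _).trans ?_
    have h11 : |p x - m x| ≤ p x + m x := by
      rw [abs_le]
      constructor
      · have := hp0 x; linarith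
      · have := hm0 x; linarith
    rw [abs_div, abs_two]
    linarith
  calc ∑ x, |E x - n / 6| ≤ ∑ x, (p x + m x + |D x - n / 3| / 2) :=
        Finset.sum_le_sum fun x _ => e7 x
    _ = ∑ x, p x + ∑ x, m x + (∑ x, |D x - n / 3|) / 2 := by
        rw [Finset.sum_add_distrib, Finset.sum_add_distrib, Finset.sum_div]
    _ ≤ η * n ^ 2 + 9 * a * n ^ 2 + (a * n ^ 2) / 2 := by
        have := h5
        linarith
    _ ≤ 11 * a * n ^ 2 := by
        have : η * n ^ 2 ≤ a * n ^ 2 := by gcongr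
        have : 0 ≤ a * n ^ 2 := by positivity
        linarith

theorem hyp (V : Type) [Fintype V] [DecidableEq V] (S : Sys V) (Z : Finset V) (η : ℝ)
    (hη : 0 < η) (hη1 : η ≤ 1) (h : CC S Z η) :
    HH S (w S.A Z) (100 * Real.sqrt η) := by
  have hn : 0 < (Fintype.card V : ℝ) := by
    by_contra hcon
    have h0 : (Fintype.card V : ℝ) ≤ 0 := not_lt.1 hcon
    have := h.c8
    nlinarith
  set a := Real.sqrt η with ha'
  have ha : 0 < a := Real.sqrt_pos.2 hη
  have ha2 : a ^ 2 = η := Real.sq_sqrt hη.le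
  have ha1 : a ≤ 1 := Real.sqrt_le_one.2 hη1
  have hηa : η ≤ a := by rw [← ha2]; nlinarith
  set n : ℝ := (Fintype.card V : ℝ) with hndef
  have hn2 : 0 ≤ a * n ^ 2 := by positivity
  have hn3 : 0 ≤ a * n ^ 3 := by positivity
  have H1 := part1 S (w S.A Z) ha (by rw [ha2]; exact h.c1)
  have H2 : ∑ x, |∑ y, S.A x y - n / 3| ≤ a * n ^ 2 :=
    sum_abs_le ha (fun x => ∑ y, S.A x y - n / 3) hn (by rw [ha2]; exact h.c3)
  have H2' : ∑ x, |∑ y, w S.A Z x y - n / 3| ≤ a * n ^ 2 :=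
    sum_abs_le ha (fun x => ∑ y, w S.A Z x y - n / 3) hn (by rw [ha2]; exact h.c2)
  have H5 : ∑ x, max (∑ y, (w S.A Z x y) ^ 2 - (∑ y, w S.A Z x y) / 2) 0 ≤ η * n ^ 2 := by
    classical
    have hc := h.c5 (fun x => if 0 < ∑ y, (w S.A Z x y) ^ 2 - (∑ y, w S.A Z x y) / 2 then 1 else 0)
      (fun x => by split_ifs <;> norm_num)
      (fun x => by split_ifs <;> norm_num)
      (fun x x' hxx => by
        have hw : ∀ y, w S.A Z x y = w S.A Z x' y := fun y => ce_congr hxx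
        simp only [hw])
    have e : ∑ x, max (∑ y, (w S.A Z x y) ^ 2 - (∑ y, w S.A Z x y) / 2) 0 =
        ∑ x, (if 0 < ∑ y, (w S.A Z x y) ^ 2 - (∑ y, w S.A Z x y) / 2 then (1 : ℝ) else 0) *
          ∑ y, (w S.A Z x y) ^ 2 - (1 / 2) *
        ∑ x, (if 0 < ∑ y, (w S.A Z x y) ^ 2 - (∑ y, w S.A Z x y) / 2 then (1 : ℝ) else 0) *
          ∑ y, w S.A Z x y := by
      rw [Finset.mul_sum, ← Finset.sum_sub_distrib]
      refine Finset.sum_congr rfl fun x _ => ?_
      split_ifs with h0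
      · rw [max_eq_left h0.le]; ring
      · rw [max_eq_right (not_lt.1 h0)]; ring
    rw [e]
    linarith
  have H3 : ∑ x, |∑ y, (w S.A Z x y) ^ 2 - n / 6| ≤ 11 * a * n ^ 2 :=
    part3 (fun x => ∑ y, w S.A Z x y) (fun x => ∑ y, (w S.A Z x y) ^ 2) ha hηa hn
      (fun x => Finset.sum_nonneg fun y _ => w_nonneg S Z x y)
      (fun x => by
        calc ∑ y, w S.A Z x y ≤ ∑ _y : V, (1 : ℝ) := Finset.sum_le_sum fun y _ => w_le_one S Z x y
          _ = _ := by simp)
      (fun x => Finset.sum_nonneg fun y _ => sq_nonneg _) H2' h.c4 H5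
  have H4 := hyp4 V S η a H2 h.c7 h.c8
  refine ⟨w_nonneg S Z, w_le_one S Z, ?_, ?_, ?_, ?_, ?_, ?_⟩
  · refine H1.trans ?_
    nlinarith
  · refine H2.trans ?_
    nlinarith
  · refine H2'.trans ?_
    nlinarith
  · refine H3.trans ?_
    nlinarith
  · refine H4.trans ?_
    have : (a + 4 * η) * n ^ 3 ≤ (a + 4 * a) * n ^ 3 := by gcongr
    nlinarith
  · refine h.c6.trans ?_
    have : η * n ^ 3 ≤ a * n ^ 3 := by gcongr
    have : a * n ^ 3 ≤ 100 * a * n ^ 3 := by nlinarith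
    linarith

end Pool.Agent.Helper29.TC
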