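import Pool.Agent.Helper29.TC.Base
import Pool.Agent.Helper18.SF.Twin3
import Pool.Agent.Helper18.SF.Tri
import Pool.Agent.Helper18.SF.Expl

set_option autoImplicit false

/-! The main chain with all slacks. Conventions: `n = |V|`, `m = ∑∑ A`, `ρ = m/n^2`, `W = w S.A Z`,
`D x = ∑ y, A x y`, `Db x = ∑ y, W x y` (it is `ce (pat A Z) D x`), `E x = ∑ y, (W x y)^2`,
`P = ∑ Db^2`, `s x x' = ∑ y, W x y * W x' y`, `cd x x' = ∑ y, A y x * A y x'`,
`g = W x y + W x' y + W (f x x') y`. -/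

namespace Pool.Agent.Helper29.TC

open Finset Pool.Agent.Helper18.SF

variable {V : Type} [Fintype V] [DecidableEq V]

/-- The exact expansion of `∑_A ∑_y (g - 1)^2`. -/
theorem chain_expand (S : Sys V) (Z : Finset V) :
    ∑ x, ∑ x', S.A x x' * ∑ y, (w S.A Z x y + w S.A Z x' y + w S.A Z (S.f x x') y - 1) ^ 2 =
      3 * ∑ x, (∑ y, w S.A Z x y) * ∑ y, (w S.A Z x y) ^ 2 +
      6 * ∑ x, ∑ x', S.A x x' * ∑ y, w S.A Z x y * w S.A Z x' y -
      6 * ∑ x, (∑ y, w S.A Z x y) ^ 2 +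
      (∑ x, ∑ x', S.A x x') * (Fintype.card V : ℝ) := by
  classical
  set W : V → ℝ := fun x => ∑ y, w S.A Z x y with hW
  set d : V → ℝ := fun x => ∑ y, S.A x y with hd
  have hWce : ∀ x, W x = ce (pat S.A Z) d x := fun x => sum_w_eq_ce S Z x
  have hWc : ∀ z z', pat S.A Z z = pat S.A Z z' → W z = W z' := by
    intro z z' h
    rw [hWce, hWce]
    exact ce_congr h
  have a1 : ∑ x, W x * ∑ y, (w S.A Z x y) ^ 2 = ∑ x, d x * ∑ y, (w S.A Z x y) ^ 2 := by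
    have := sum_ce_mul (pat S.A Z) d (fun x => ∑ y, (w S.A Z x y) ^ 2) (fun z z' h => by
      refine Finset.sum_congr rfl fun y _ => ?_
      unfold w
      rw [ce_congr h])
    rw [← this]
    exact Finset.sum_congr rfl fun x _ => by rw [hWce]
  have a2 : ∑ x, W x ^ 2 = ∑ x, d x * W x := by
    have := sum_ce_mul (pat S.A Z) d W hWc
    rw [← this]
    exact Finset.sum_congr rfl fun x _ => by rw [← hWce, sq]
  have b1 : ∀ F : V → ℝ, ∑ x, ∑ y, S.A x y * F x = ∑ x, d x * F x := by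
    intro F
    refine Finset.sum_congr rfl fun x _ => ?_
    rw [hd, Finset.sum_mul]
  have b2 : ∀ F : V → ℝ, ∑ x, ∑ y, S.A x y * F y = ∑ x, d x * F x := by
    intro F
    rw [← b1, S.sum_right fun _ y => F y]
  have b3 : ∀ F : V → ℝ, ∑ x, ∑ y, S.A x y * F (S.f x y) = ∑ x, d x * F x := by
    intro F
    rw [← b2, S.sum_third fun _ y => F y]
  have c1 : ∑ x, ∑ y, S.A x y * (W x + W y + W (S.f x y)) = 3 * ∑ x, W x ^ 2 := by
    rw [a2]
    have : ∑ x, ∑ y, S.A x y * (W x + W y + W (S.f x y)) =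
        ∑ x, ∑ y, S.A x y * W x + ∑ x, ∑ y, S.A x y * W y + ∑ x, ∑ y, S.A x y * W (S.f x y) := by
      simp only [← Finset.sum_add_distrib, mul_add]
    rw [this, b1, b2, b3]
    ring
  set Q : V → V → ℝ := fun x y => ∑ u, w S.A Z x u * w S.A Z y u with hQ
  have hQx : ∀ x, Q x x = ∑ u, (w S.A Z x u) ^ 2 := fun x => Finset.sum_congr rfl fun u _ => (sq _).symm
  have c4 : ∀ x y z, ∑ u, (w S.A Z x u + w S.A Z y u + w S.A Z z u - 1) ^ 2 =
      Q x x + Q y y + Q z z + 2 * Q x y + 2 * Q x z + 2 * Q y z - 2 * (W x + W y + W z) +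
        (Fintype.card V : ℝ) := by
    intro x y z
    have h1 : (Fintype.card V : ℝ) = ∑ _u : V, (1 : ℝ) := by simp
    rw [h1]
    simp only [hQ, hW, Finset.mul_sum, ← Finset.sum_add_distrib, ← Finset.sum_sub_distrib]
    exact Finset.sum_congr rfl fun u _ => by ring
  have h1 : ∑ x, ∑ y, S.A x y * ∑ u, (w S.A Z x u + w S.A Z y u + w S.A Z (S.f x y) u - 1) ^ 2 =
      ∑ x, ∑ y, S.A x y * Q x x + ∑ x, ∑ y, S.A x y * Q y y +
        ∑ x, ∑ y, S.A x y * Q (S.f x y) (S.f x y) + 2 * ∑ x, ∑ y, S.A x y * Q x y +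
        2 * ∑ x, ∑ y, S.A x y * Q x (S.f x y) + 2 * ∑ x, ∑ y, S.A x y * Q y (S.f x y) -
        2 * ∑ x, ∑ y, S.A x y * (W x + W y + W (S.f x y)) +
        ∑ x, ∑ y, S.A x y * (Fintype.card V : ℝ) := by
    simp only [c4, Finset.mul_sum, ← Finset.sum_add_distrib, ← Finset.sum_sub_distrib]
    exact Finset.sum_congr rfl fun x _ => Finset.sum_congr rfl fun y _ => by ring
  have h2 : ∑ x, ∑ y, S.A x y * (Fintype.card V : ℝ) =
      (∑ x, ∑ x', S.A x x') * (Fintype.card V : ℝ) := by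
    rw [Finset.sum_mul]
    exact Finset.sum_congr rfl fun x _ => by rw [Finset.sum_mul]
  have h3 : ∑ x, W x * ∑ y, (w S.A Z x y) ^ 2 = ∑ x, d x * Q x x := by
    rw [a1]
    exact Finset.sum_congr rfl fun x _ => by rw [hQx]
  rw [h1, h2, h3, b1 (fun x => Q x x), b2 (fun x => Q x x), b3 (fun x => Q x x), S.sum_third Q,
    S.sum_third' Q, c1]
  ring

/-- Total of the averaged degrees. -/
theorem chain_total (S : Sys V) (Z : Finset V) :
    ∑ x, ∑ y, w S.A Z x y = ∑ x, ∑ y, S.A x y := by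
  rw [← sum_ce (pat S.A Z) (fun z => ∑ y, S.A z y)]
  exact Finset.sum_congr rfl fun x _ => sum_w_eq_ce S Z x

/-- Codegrees against degrees. -/
theorem chain_cd (S : Sys V) :
    ∑ x, ∑ x', S.A x x' * ∑ y, S.A y x * S.A y x' ≤ ∑ x, ((∑ y, S.A x y) ^ 2 / 4 + ∑ y, S.A x y) := by
  have h1 : ∑ x, ∑ x', S.A x x' * ∑ y, S.A y x * S.A y x' =
      ∑ y, ∑ x, ∑ x', S.A y x * S.A y x' * S.A x x' := by
    rw [Finset.sum_comm]
    have : ∀ x', ∑ x, S.A x x' * ∑ y, S.A y x * S.A y x' =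
        ∑ y, ∑ x, S.A y x * S.A y x' * S.A x x' := by
      intro x'
      rw [Finset.sum_comm]
      refine Finset.sum_congr rfl fun x _ => ?_
      rw [Finset.mul_sum]
      exact Finset.sum_congr rfl fun y _ => by ring
    simp only [this]
    rw [Finset.sum_comm]
    refine Finset.sum_congr rfl fun y _ => ?_
    rw [Finset.sum_comm]
  rw [h1]
  exact Finset.sum_le_sum fun y _ => S.tri_ineq y

/-- The partition with all estimates of the bound, one error `e`. -/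
theorem chain_base (e : ℝ) (he : 0 < e) (he1 : e ≤ 1) : ∃ N : ℕ,
    ∀ (V : Type) [Fintype V] [DecidableEq V], N ≤ Fintype.card V → ∀ S : Sys V,
      1 ≤ e * (Fintype.card V : ℝ) ∧ ∃ Z : Finset V,
      (∀ (l : V → ℝ) (L : ℝ), 0 ≤ L → (∀ x, 0 ≤ l x) → (∀ x, l x ≤ L) →
        (∀ x x', pat S.A Z x = pat S.A Z x' → l x = l x') →
        ∑ x, l x * ∑ y, (w S.A Z x y) ^ 2 ≤ (1 / 2) * ∑ x, l x * ∑ y, w S.A Z x y +
          L * (e * (Fintype.card V : ℝ) ^ 2)) ∧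
      (∑ x, ∑ x', S.A x x' * ∑ y, w S.A Z x y * w S.A Z x' y ≤
        ∑ x, ∑ x', S.A x x' * ∑ y, S.A y x * S.A y x' + e * (Fintype.card V : ℝ) ^ 3) ∧
      (∑ x, (∑ y, S.A x y) ^ 2 ≤ ∑ x, (∑ y, w S.A Z x y) ^ 2 + e * (Fintype.card V : ℝ) ^ 3) := by
  obtain ⟨M, hM⟩ := two_scale ((e ^ 2 / 32) ^ 2) (by positivity)
    (fun k => (e ^ 2 / 16 / 2 ^ k) ^ 2) (fun k => by positivity)
  refine ⟨⌈2 * 2 ^ M / e⌉₊ + 1, ?_⟩
  intro V _ _ hV S
  have hn0 : (0:ℝ) ≤ Fintype.card V := Nat.cast_nonneg _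
  have hN : 2 * 2 ^ M / e ≤ (Fintype.card V : ℝ) := by
    have h1 : ((⌈2 * 2 ^ M / e⌉₊ + 1 : ℕ) : ℝ) ≤ (Fintype.card V : ℝ) := by exact_mod_cast hV
    push_cast at h1
    linarith [Nat.le_ceil (2 * 2 ^ M / e)]
  rw [div_le_iff₀ he] at hN
  have hM1 : (1:ℝ) ≤ 2 ^ M := one_le_pow₀ (by norm_num)
  refine ⟨by nlinarith, ?_⟩
  obtain ⟨Z, Z', hZ, hZM, h0, h1, h2⟩ := hM V S.A S.h01
  refine ⟨Z, ?_, ?_, ?_⟩
  · intro l L hL hl0 hl1 hlc
    have hd := dev_bound S Z Z' hZ ((e ^ 2 / 32) ^ 2) ((e ^ 2 / 16 / 2 ^ Z.card) ^ 2)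
      (by positivity) (by positivity) h1 h2
    rw [Real.sqrt_sq (by positivity), Real.sqrt_sq (by positivity)] at hd
    have ht := twin S Z (e / 4) _ (by positivity) hd l hl0 L hL hl1 hlc
    refine ht.trans (add_le_add le_rfl (mul_le_mul_of_nonneg_left ?_ hL))
    have hp : (2:ℝ) ^ Z.card ≤ 2 ^ M := pow_le_pow_right₀ (by norm_num) hZM
    have hp0 : (0:ℝ) < 2 ^ Z.card := by positivity
    have e1 : (2 ^ Z.card * (e ^ 2 / 16 / 2 ^ Z.card) + 2 * (e ^ 2 / 32)) *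
        (Fintype.card V : ℝ) ^ 2 / (e / 4) = e / 2 * (Fintype.card V : ℝ) ^ 2 := by
      field_simp
      ring
    rw [e1]
    have e2 : (Fintype.card V : ℝ) * 2 ^ Z.card / 2 ≤ e / 4 * (Fintype.card V : ℝ) ^ 2 := by
      have e3 : (2:ℝ) ^ Z.card ≤ e / 2 * (Fintype.card V : ℝ) := by nlinarith
      nlinarith
    linarith
  · refine (tri_compare S Z _ (by positivity) h0).trans (add_le_add le_rfl ?_)
    rw [Real.sqrt_sq (by positivity)]
    have : 2 * (e ^ 2 / 16 / 2 ^ 0) ≤ e := by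
      norm_num
      nlinarith
    exact mul_le_mul_of_nonneg_right this (by positivity)
  · refine (deg_compare S Z _ (by positivity) h0).trans (add_le_add le_rfl ?_)
    rw [Real.sqrt_sq (by positivity)]
    have : (e ^ 2 / 16 / 2 ^ 0) ≤ e := by
      norm_num
      nlinarith
    exact mul_le_mul_of_nonneg_right this (by positivity)

/-- The algebra of the chain in normalised quantities. -/
theorem chain_alg (η e δ n m G R s c Q P : ℝ) (hη : 0 < η) (hη1 : η ≤ 1) (he : e = η / 100)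
    (hδ : δ = η / 100) (hn : 0 < n) (hn6 : 6 ≤ e * n) (hm1 : m ≤ n ^ 2) (hG : 0 ≤ G)
    (hGe : G = 3 * R + 6 * s - 6 * P + m * n) (h1 : R ≤ P / 2 + e * n ^ 3)
    (h2 : s ≤ c + e * n ^ 3) (h3 : c ≤ Q / 4 + m) (h4 : Q ≤ P + e * n ^ 3)
    (h5 : m ^ 2 ≤ n * P) (h7 : (1 / 3 - δ) * n ^ 2 ≤ m) :
    G ≤ η * n ^ 3 ∧ P - 2 * (n / 3) * m + n ^ 3 / 9 ≤ η * n ^ 3 ∧
      Q - 2 * (n / 3) * m + n ^ 3 / 9 ≤ η * n ^ 3 ∧ P / 2 - R ≤ η * n ^ 3 ∧
      Q / 4 + m - c ≤ η * n ^ 3 := by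
  have hn3 : 0 < n ^ 3 := by positivity
  have hn2 : 0 < n ^ 2 := by positivity
  obtain ⟨μ, hμ⟩ : ∃ μ, m = μ * n ^ 2 := ⟨m / n ^ 2, by field_simp⟩
  obtain ⟨g, hg⟩ : ∃ g, G = g * n ^ 3 := ⟨G / n ^ 3, by field_simp⟩
  obtain ⟨r, hr⟩ : ∃ r, R = r * n ^ 3 := ⟨R / n ^ 3, by field_simp⟩
  obtain ⟨s', hs⟩ : ∃ s', s = s' * n ^ 3 := ⟨s / n ^ 3, by field_simp⟩
  obtain ⟨c', hc⟩ : ∃ c', c = c' * n ^ 3 := ⟨c / n ^ 3, by field_simp⟩
  obtain ⟨q', hq⟩ : ∃ q', Q = q' * n ^ 3 := ⟨Q / n ^ 3, by field_simp⟩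
  obtain ⟨p, hp⟩ : ∃ p, P = p * n ^ 3 := ⟨P / n ^ 3, by field_simp⟩
  subst hμ hg hr hs hc hq hp
  have g0 : 0 ≤ g := nonneg_of_mul_nonneg_left hG hn3
  have g1 : g = 3 * r + 6 * s' - 6 * p + μ := by
    have : g * n ^ 3 = (3 * r + 6 * s' - 6 * p + μ) * n ^ 3 := by rw [hGe]; ring
    exact mul_right_cancel₀ hn3.ne' this
  have r1 : r ≤ p / 2 + e := by
    have : r * n ^ 3 ≤ (p / 2 + e) * n ^ 3 := by linarith
    exact le_of_mul_le_mul_right this hn3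
  have s1 : s' ≤ c' + e := by
    have : s' * n ^ 3 ≤ (c' + e) * n ^ 3 := by linarith
    exact le_of_mul_le_mul_right this hn3
  have μ0 : 1 / 3 - δ ≤ μ := le_of_mul_le_mul_right h7 hn2
  have μ1 : μ ≤ 1 := by
    have : μ * n ^ 2 ≤ 1 * n ^ 2 := by linarith
    exact le_of_mul_le_mul_right this hn2
  have μp : 0 ≤ μ := by linarith
  have c1 : c' ≤ q' / 4 + e / 6 := by
    have h8 : μ * n ^ 2 ≤ (e / 6) * n ^ 3 := by
      have h9 : μ * n ^ 2 ≤ n ^ 2 := hm1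
      have h10 : n ^ 2 ≤ (e / 6) * n ^ 3 := by
        have : n ^ 2 * 6 ≤ n ^ 2 * (e * n) := mul_le_mul_of_nonneg_left hn6 hn2.le
        nlinarith
      linarith
    have : c' * n ^ 3 ≤ (q' / 4 + e / 6) * n ^ 3 := by linarith
    exact le_of_mul_le_mul_right this hn3
  have q1 : q' ≤ p + e := by
    have : q' * n ^ 3 ≤ (p + e) * n ^ 3 := by linarith
    exact le_of_mul_le_mul_right this hn3
  have p1 : μ ^ 2 ≤ p := by
    have h8 : μ ^ 2 * n ^ 4 ≤ p * n ^ 4 := by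
      calc μ ^ 2 * n ^ 4 = (μ * n ^ 2) ^ 2 := by ring
        _ ≤ n * (p * n ^ 3) := h5
        _ = p * n ^ 4 := by ring
    exact le_of_mul_le_mul_right h8 (by positivity)
  -- the error of `m/n^3`
  have hι : μ * n ^ 2 ≤ (e / 6) * n ^ 3 := by
    have h9 : μ * n ^ 2 ≤ n ^ 2 := hm1
    have h10 : n ^ 2 ≤ (e / 6) * n ^ 3 := by
      have : n ^ 2 * 6 ≤ n ^ 2 * (e * n) := mul_le_mul_of_nonneg_left hn6 hn2.le
      nlinarith
    linarith
  have hδ0 : 0 < δ := by rw [hδ]; positivity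
  have he0 : 0 < e := by rw [he]; positivity
  have hμμ : μ - 3 * μ ^ 2 ≤ 3 * δ := by
    calc μ - 3 * μ ^ 2 = μ * (1 - 3 * μ) := by ring
      _ ≤ μ * (3 * δ) := mul_le_mul_of_nonneg_left (by linarith) μp
      _ ≤ 1 * (3 * δ) := mul_le_mul_of_nonneg_right μ1 (by linarith)
      _ = 3 * δ := one_mul _
  -- the total
  have tot : g + 3 * (p / 2 + e - r) + 6 * (c' + e - s') + 6 * (q' / 4 + e / 6 - c') +
      (3 / 2) * (p + e - q') + 3 * (p - μ ^ 2) = μ - 3 * μ ^ 2 + (23 / 2) * e := by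
    rw [g1]; ring
  have hup : μ - 1 / 3 ≤ (4 / 3) * ((23 / 2) * e) := by
    have h8 : 0 ≤ μ - 3 * μ ^ 2 + (23 / 2) * e := by linarith
    have h9 : 1 / 4 ≤ μ := by linarith
    by_contra h
    push Not at h
    have h10 : 0 ≤ (μ - 1 / 4) * (μ - 1 / 3) := mul_nonneg (by linarith) (by linarith)
    have h11 : (μ - 1 / 4) * (μ - 1 / 3) = μ * (μ - 1 / 3) - (1 / 4) * (μ - 1 / 3) := by ring
    have h12 : μ - 3 * μ ^ 2 = -(3 * (μ * (μ - 1 / 3))) := by ring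
    linarith
  have hlo : -δ ≤ μ - 1 / 3 := by linarith
  have hsq : (μ - 1 / 3) ^ 2 ≤ η / 10 := by
    have h8 : |μ - 1 / 3| ≤ η / 5 := by
      rw [abs_le]
      constructor <;> linarith
    have h9 : (μ - 1 / 3) ^ 2 ≤ (η / 5) ^ 2 := sq_le_sq' (by linarith [(abs_le.1 h8).1]) (abs_le.1 h8).2
    have h10 : (η / 5) ^ 2 = η * η / 25 := by ring
    have h11 : η * η ≤ η * 1 := mul_le_mul_of_nonneg_left hη1 hη.le
    linarith
  have k1 : 3 * (p - μ ^ 2) ≤ 3 * δ + (23 / 2) * e := by linarith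
  have k2 : p - 2 / 3 * μ + 1 / 9 ≤ η / 2 := by
    have : p - 2 / 3 * μ + 1 / 9 = (p - μ ^ 2) + (μ - 1 / 3) ^ 2 := by ring
    rw [this]
    linarith
  refine ⟨?_, ?_, ?_, ?_, ?_⟩
  · exact mul_le_mul_of_nonneg_right (by linarith) hn3.le
  · have : p * n ^ 3 - 2 * (n / 3) * (μ * n ^ 2) + n ^ 3 / 9 = (p - 2 / 3 * μ + 1 / 9) * n ^ 3 := by
      ring
    rw [this]
    exact mul_le_mul_of_nonneg_right (by linarith) hn3.le
  · have : q' * n ^ 3 - 2 * (n / 3) * (μ * n ^ 2) + n ^ 3 / 9 = (q' - 2 / 3 * μ + 1 / 9) * n ^ 3 := by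
      ring
    rw [this]
    exact mul_le_mul_of_nonneg_right (by linarith) hn3.le
  · have : p * n ^ 3 / 2 - r * n ^ 3 = (p / 2 - r) * n ^ 3 := by ring
    rw [this]
    exact mul_le_mul_of_nonneg_right (by linarith) hn3.le
  · have h8 : q' / 4 - c' ≤ η / 2 := by linarith
    have h9 : (q' / 4 - c') * n ^ 3 ≤ (η / 2) * n ^ 3 := mul_le_mul_of_nonneg_right h8 hn3.le
    have h10 : (e / 6) * n ^ 3 ≤ (η / 2) * n ^ 3 := mul_le_mul_of_nonneg_right (by linarith) hn3.le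
    linarith

theorem chain (η : ℝ) (hη : 0 < η) : ∃ δ : ℝ, 0 < δ ∧ ∃ N : ℕ,
    ∀ (V : Type) [Fintype V] [DecidableEq V], N ≤ Fintype.card V → ∀ S : Sys V,
      (1 / 3 - δ) * (Fintype.card V : ℝ) ^ 2 ≤ ∑ x, ∑ y, S.A x y →
      ∃ Z : Finset V, CC S Z η := by
  set η0 : ℝ := min η 1 with hη0
  have h0 : 0 < η0 := lt_min hη one_pos
  have h1 : η0 ≤ 1 := min_le_right _ _
  have hle : η0 ≤ η := min_le_left _ _
  obtain ⟨N, hN⟩ := chain_base (η0 / 100) (by positivity) (by linarith)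
  refine ⟨η0 / 100, by positivity, max N (⌈600 / η0⌉₊ + 1), ?_⟩
  intro V _ _ hV S hm
  obtain ⟨-, Z, ht, ha, hb⟩ := hN V ((le_max_left _ _).trans hV) S
  have hV6 : 600 / η0 ≤ (Fintype.card V : ℝ) := by
    have h2 : ((⌈600 / η0⌉₊ + 1 : ℕ) : ℝ) ≤ (Fintype.card V : ℝ) := by
      exact_mod_cast (le_max_right _ _).trans hV
    push_cast at h2
    linarith [Nat.le_ceil (600 / η0)]
  have hn : 0 < (Fintype.card V : ℝ) := lt_of_lt_of_le (by positivity) hV6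
  rw [div_le_iff₀ h0] at hV6
  set n : ℝ := (Fintype.card V : ℝ) with hnd
  have hn3 : 0 < n ^ 3 := by positivity
  have hn2 : 0 < n ^ 2 := by positivity
  have hw0 : ∀ x y, 0 ≤ w S.A Z x y := fun x y => w_nonneg S Z x y
  have hw1 : ∀ x y, w S.A Z x y ≤ 1 := fun x y => w_le_one S Z x y
  have hDb0 : ∀ x, 0 ≤ ∑ y, w S.A Z x y := fun x => sum_nonneg fun y _ => hw0 x y
  have hDb1 : ∀ x, ∑ y, w S.A Z x y ≤ n := fun x => by
    calc ∑ y, w S.A Z x y ≤ ∑ _y : V, (1:ℝ) := sum_le_sum fun y _ => hw1 x y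
      _ = n := by simp [hnd]
  have hDbc : ∀ x x', pat S.A Z x = pat S.A Z x' → ∑ y, w S.A Z x y = ∑ y, w S.A Z x' y :=
    fun x x' h => sum_congr rfl fun y _ => ce_congr h
  have hR := ht (fun x => ∑ y, w S.A Z x y) n hn.le hDb0 hDb1 hDbc
  have hm1 : ∑ x, ∑ y, S.A x y ≤ n ^ 2 := by
    calc ∑ x, ∑ y, S.A x y ≤ ∑ _x : V, ∑ _y : V, (1:ℝ) :=
          sum_le_sum fun x _ => sum_le_sum fun y _ => S.A_le_one x y
      _ = n ^ 2 := by simp [hnd, sq]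
  have hG0 : 0 ≤ ∑ x, ∑ x', S.A x x' *
      ∑ y, (w S.A Z x y + w S.A Z x' y + w S.A Z (S.f x x') y - 1) ^ 2 :=
    sum_nonneg fun x _ => sum_nonneg fun x' _ => mul_nonneg (S.A_nonneg _ _)
      (sum_nonneg fun y _ => sq_nonneg _)
  have hcd := chain_cd S
  have hcs : (∑ x, ∑ y, S.A x y) ^ 2 ≤ n * ∑ x, (∑ y, w S.A Z x y) ^ 2 := by
    rw [← chain_total S Z]
    have := sq_sum_le_card_mul_sum_sq (s := (univ : Finset V)) (f := fun x => ∑ y, w S.A Z x y)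
    rw [card_univ] at this
    exact this
  have e1 : ∑ x, ((∑ y, S.A x y) ^ 2 / 4 + ∑ y, S.A x y) =
      (∑ x, (∑ y, S.A x y) ^ 2) / 4 + ∑ x, ∑ y, S.A x y := by
    rw [sum_add_distrib, sum_div]
  have e2 : (1 / 2) * ∑ x, (∑ y, w S.A Z x y) * ∑ y, w S.A Z x y =
      (∑ x, (∑ y, w S.A Z x y) ^ 2) / 2 := by
    rw [mul_comm, mul_one_div]
    congr 1
    exact sum_congr rfl fun x _ => (sq _).symm
  rw [e1] at hcd
  rw [e2] at hR
  have hR' : ∑ x, (∑ y, w S.A Z x y) * ∑ y, (w S.A Z x y) ^ 2 ≤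
      (∑ x, (∑ y, w S.A Z x y) ^ 2) / 2 + η0 / 100 * n ^ 3 := by
    refine hR.trans (le_of_eq ?_)
    ring
  obtain ⟨k1, k2, k3, k4, k5⟩ := chain_alg η0 (η0 / 100) (η0 / 100) n _ _ _ _ _ _ _ h0 h1 rfl rfl hn
    (by linarith) hm1 hG0 (chain_expand S Z) hR' ha hcd hb hcs hm
  have up : ∀ t : ℝ, t ≤ η0 * n ^ 3 → t ≤ η * n ^ 3 := fun t h =>
    h.trans (mul_le_mul_of_nonneg_right hle hn3.le)
  refine ⟨Z, ⟨up _ k1, up _ ?_, up _ ?_, up _ ?_, ?_, ?_, up _ ?_, ?_⟩⟩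
  · refine le_trans (le_of_eq ?_) k2
    change ∑ x, (∑ y, w S.A Z x y - n / 3) ^ 2 = _
    have : ∀ x, (∑ y, w S.A Z x y - n / 3) ^ 2 =
        (∑ y, w S.A Z x y) ^ 2 - 2 * (n / 3) * (∑ y, w S.A Z x y) + (n / 3) ^ 2 := fun x => by ring
    simp_rw [this]
    rw [sum_add_distrib, sum_sub_distrib, ← mul_sum, chain_total S Z]
    simp only [sum_const, card_univ, nsmul_eq_mul]
    ring
  · refine le_trans (le_of_eq ?_) k3
    change ∑ x, (∑ y, S.A x y - n / 3) ^ 2 = _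
    have : ∀ x, (∑ y, S.A x y - n / 3) ^ 2 =
        (∑ y, S.A x y) ^ 2 - 2 * (n / 3) * (∑ y, S.A x y) + (n / 3) ^ 2 := fun x => by ring
    simp_rw [this]
    rw [sum_add_distrib, sum_sub_distrib, ← mul_sum]
    simp only [sum_const, card_univ, nsmul_eq_mul]
    ring
  · linarith
  · intro l hl0 hl1 hlc
    refine (ht l 1 zero_le_one hl0 hl1 hlc).trans (add_le_add le_rfl ?_)
    rw [one_mul]
    exact mul_le_mul_of_nonneg_right (by linarith) hn2.le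
  · refine ha.trans (add_le_add le_rfl ?_)
    exact mul_le_mul_of_nonneg_right (by linarith) hn3.le
  · rw [e1]; exact k5
  · nlinarith

end Pool.Agent.Helper29.TC
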