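import Pool.Agent.Helper18.SF.Defs

set_option autoImplicit false

/-! Three colours: common definitions. `N4 A` is the number of ordered `K_4` of the graph `A`;
`cl A k S` the number of ordered `K_k` inside `S`. -/

namespace Pool.Agent.Helper29.TC

open Finset Pool.Agent.Helper18.SF

variable {V : Type} [Fintype V] [DecidableEq V]

/-- Number of ordered `K_4`. -/
noncomputable def N4 (A : V → V → ℝ) : ℝ :=
  ∑ a, ∑ b, ∑ c, ∑ d, A a b * A a c * A b c * (A a d * A b d * A c d)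

/-- The estimates H1 to H5 for a system `S` and a kernel `W` with error `t`. -/
structure HH (S : Sys V) (W : V → V → ℝ) (t : ℝ) : Prop where
  W0 : ∀ x y, 0 ≤ W x y
  W1 : ∀ x y, W x y ≤ 1
  h1 : ∑ x, ∑ x', S.A x x' * ∑ y, |W x y + W x' y + W (S.f x x') y - 1| ≤
    t * (Fintype.card V : ℝ) ^ 3
  h2 : ∑ x, |∑ y, S.A x y - (Fintype.card V : ℝ) / 3| ≤ t * (Fintype.card V : ℝ) ^ 2
  h2' : ∑ x, |∑ y, W x y - (Fintype.card V : ℝ) / 3| ≤ t * (Fintype.card V : ℝ) ^ 2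
  h3 : ∑ x, |∑ y, (W x y) ^ 2 - (Fintype.card V : ℝ) / 6| ≤ t * (Fintype.card V : ℝ) ^ 2
  h4 : ∑ x, ∑ x', S.A x x' * |∑ y, S.A y x * S.A y x' - (Fintype.card V : ℝ) / 12| ≤
    t * (Fintype.card V : ℝ) ^ 3
  h5 : ∑ x, ∑ x', S.A x x' * ∑ y, W x y * W x' y ≤
    ∑ x, ∑ x', S.A x x' * ∑ y, S.A y x * S.A y x' + t * (Fintype.card V : ℝ) ^ 3

/-- The output of the main chain: all slacks of the proof of the bound are small. -/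
structure CC (S : Sys V) (Z : Finset V) (η : ℝ) : Prop where
  c1 : ∑ x, ∑ x', S.A x x' *
      ∑ y, (w S.A Z x y + w S.A Z x' y + w S.A Z (S.f x x') y - 1) ^ 2 ≤
    η * (Fintype.card V : ℝ) ^ 3
  c2 : ∑ x, (∑ y, w S.A Z x y - (Fintype.card V : ℝ) / 3) ^ 2 ≤ η * (Fintype.card V : ℝ) ^ 3
  c3 : ∑ x, (∑ y, S.A x y - (Fintype.card V : ℝ) / 3) ^ 2 ≤ η * (Fintype.card V : ℝ) ^ 3
  c4 : (1 / 2) * ∑ x, (∑ y, w S.A Z x y) ^ 2 - ∑ x, (∑ y, w S.A Z x y) * ∑ y, (w S.A Z x y) ^ 2 ≤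
    η * (Fintype.card V : ℝ) ^ 3
  c5 : ∀ l : V → ℝ, (∀ x, 0 ≤ l x) → (∀ x, l x ≤ 1) →
    (∀ x x', pat S.A Z x = pat S.A Z x' → l x = l x') →
    ∑ x, l x * ∑ y, (w S.A Z x y) ^ 2 ≤ (1 / 2) * ∑ x, l x * ∑ y, w S.A Z x y +
      η * (Fintype.card V : ℝ) ^ 2
  c6 : ∑ x, ∑ x', S.A x x' * ∑ y, w S.A Z x y * w S.A Z x' y ≤
    ∑ x, ∑ x', S.A x x' * ∑ y, S.A y x * S.A y x' + η * (Fintype.card V : ℝ) ^ 3
  c7 : ∑ x, ((∑ y, S.A x y) ^ 2 / 4 + ∑ y, S.A x y) -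
      ∑ x, ∑ x', S.A x x' * ∑ y, S.A y x * S.A y x' ≤ η * (Fintype.card V : ℝ) ^ 3
  c8 : 1 ≤ η * (Fintype.card V : ℝ)

end Pool.Agent.Helper29.TC
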