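import Pool.Agent.Helper29.TC.Base
import Pool.Agent.Helper18.SF.Twin1

set_option autoImplicit false
set_option linter.unusedSectionVars false

/-! Few `K_4`. -/

namespace Pool.Agent.Helper29.TC

open Finset Pool.Agent.Helper18.SF

section gen

variable {V : Type} [Fintype V] [DecidableEq V]

/-- Sum over ordered triangles. -/
noncomputable def ts (A : V → V → ℝ) (F : V → V → V → ℝ) : ℝ :=
  ∑ a, ∑ b, ∑ u, A a b * A a u * A b u * F a b u

/-- Sum over ordered `K_4`. -/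
noncomputable def ks (A : V → V → ℝ) (F : V → V → V → V → ℝ) : ℝ :=
  ∑ a, ∑ b, ∑ u, ∑ v, A a b * A a u * A b u * (A a v * A b v * A u v) * F a b u v

/-- Codegree. -/
noncomputable def cd (A : V → V → ℝ) (a b : V) : ℝ := ∑ y, A y a * A y b

theorem ts_add (A : V → V → ℝ) (F G : V → V → V → ℝ) :
    ts A (fun a b u => F a b u + G a b u) = ts A F + ts A G := by
  simp only [ts, mul_add, Finset.sum_add_distrib]

theorem ts_sub (A : V → V → ℝ) (F G : V → V → V → ℝ) :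
    ts A (fun a b u => F a b u - G a b u) = ts A F - ts A G := by
  simp only [ts, mul_sub, Finset.sum_sub_distrib]

theorem ks_add (A : V → V → ℝ) (F G : V → V → V → V → ℝ) :
    ks A (fun a b u v => F a b u v + G a b u v) = ks A F + ks A G := by
  simp only [ks, mul_add, Finset.sum_add_distrib]

theorem ks_sub (A : V → V → ℝ) (F G : V → V → V → V → ℝ) :
    ks A (fun a b u v => F a b u v - G a b u v) = ks A F - ks A G := by
  simp only [ks, mul_sub, Finset.sum_sub_distrib]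

theorem ks_smul (A : V → V → ℝ) (r : ℝ) (F : V → V → V → V → ℝ) :
    ks A (fun a b u v => r * F a b u v) = r * ks A F := by
  simp only [ks, Finset.mul_sum]
  refine Finset.sum_congr rfl (fun a _ => Finset.sum_congr rfl (fun b _ =>
    Finset.sum_congr rfl (fun u _ => Finset.sum_congr rfl (fun v _ => ?_))))
  ring

theorem ts_smul (A : V → V → ℝ) (r : ℝ) (F : V → V → V → ℝ) :
    ts A (fun a b u => r * F a b u) = r * ts A F := by
  simp only [ts, Finset.mul_sum]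
  refine Finset.sum_congr rfl (fun a _ => Finset.sum_congr rfl (fun b _ =>
    Finset.sum_congr rfl (fun u _ => ?_)))
  ring

variable {A : V → V → ℝ}

theorem ts_mono (h0 : ∀ x y, 0 ≤ A x y) {F G : V → V → V → ℝ} (h : ∀ a b u, F a b u ≤ G a b u) :
    ts A F ≤ ts A G := by
  refine Finset.sum_le_sum (fun a _ => Finset.sum_le_sum (fun b _ =>
    Finset.sum_le_sum (fun u _ => ?_)))
  exact mul_le_mul_of_nonneg_left (h a b u) (mul_nonneg (mul_nonneg (h0 _ _) (h0 _ _)) (h0 _ _))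

theorem ks_mono (h0 : ∀ x y, 0 ≤ A x y) {F G : V → V → V → V → ℝ}
    (h : ∀ a b u v, F a b u v ≤ G a b u v) : ks A F ≤ ks A G := by
  refine Finset.sum_le_sum (fun a _ => Finset.sum_le_sum (fun b _ =>
    Finset.sum_le_sum (fun u _ => Finset.sum_le_sum (fun v _ => ?_))))
  exact mul_le_mul_of_nonneg_left (h a b u v)
    (mul_nonneg (mul_nonneg (mul_nonneg (h0 _ _) (h0 _ _)) (h0 _ _))
      (mul_nonneg (mul_nonneg (h0 _ _) (h0 _ _)) (h0 _ _)))

/-- Swap of the last two vertices. -/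
theorem ks_swap (hs : ∀ x y, A x y = A y x) (F : V → V → V → V → ℝ) :
    ks A F = ks A (fun a b u v => F a b v u) := by
  unfold ks
  refine Finset.sum_congr rfl (fun a _ => Finset.sum_congr rfl (fun b _ => ?_))
  rw [Finset.sum_comm]
  refine Finset.sum_congr rfl (fun u _ => Finset.sum_congr rfl (fun v _ => ?_))
  rw [hs v u]
  ring

theorem ts_ab (hs : ∀ x y, A x y = A y x) (G : V → V → ℝ) :
    ts A (fun a b _ => G a b) = ∑ a, ∑ b, A a b * (cd A a b * G a b) := by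
  unfold ts cd
  refine Finset.sum_congr rfl (fun a _ => Finset.sum_congr rfl (fun b _ => ?_))
  rw [Finset.sum_mul, Finset.mul_sum]
  refine Finset.sum_congr rfl (fun u _ => ?_)
  rw [hs u a, hs u b]
  ring

theorem ts_au (hs : ∀ x y, A x y = A y x) (G : V → V → ℝ) :
    ts A (fun a _ u => G a u) = ∑ a, ∑ u, A a u * (cd A a u * G a u) := by
  unfold ts cd
  refine Finset.sum_congr rfl (fun a _ => ?_)
  rw [Finset.sum_comm]
  refine Finset.sum_congr rfl (fun u _ => ?_)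
  rw [Finset.sum_mul, Finset.mul_sum]
  refine Finset.sum_congr rfl (fun b _ => ?_)
  rw [hs b a]
  ring

theorem ts_bu (hs : ∀ x y, A x y = A y x) (G : V → V → ℝ) :
    ts A (fun _ b u => G b u) = ∑ a, ∑ u, A a u * (cd A a u * G a u) := by
  rw [← ts_au hs]
  unfold ts
  rw [Finset.sum_comm]
  refine Finset.sum_congr rfl (fun a _ => Finset.sum_congr rfl (fun b _ =>
    Finset.sum_congr rfl (fun u _ => ?_)))
  rw [hs b a]
  ring

/-- Codegrees may be replaced by `n/12`. -/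
theorem kc (h0 : ∀ x y, 0 ≤ A x y) (G : V → V → ℝ) (M R c : ℝ)
    (hG : ∀ a b, |G a b| ≤ M) (hR : ∑ a, ∑ b, A a b * |cd A a b - c| ≤ R) (hM : 0 ≤ M) :
    |∑ a, ∑ b, A a b * (cd A a b * G a b) - c * ∑ a, ∑ b, A a b * G a b| ≤ M * R := by
  have e1 : ∑ a, ∑ b, A a b * (cd A a b * G a b) - c * ∑ a, ∑ b, A a b * G a b =
      ∑ a, ∑ b, A a b * (cd A a b - c) * G a b := by
    rw [Finset.mul_sum, ← Finset.sum_sub_distrib]
    refine Finset.sum_congr rfl (fun a _ => ?_)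
    rw [Finset.mul_sum, ← Finset.sum_sub_distrib]
    refine Finset.sum_congr rfl (fun b _ => ?_)
    ring
  rw [e1]
  calc |∑ a, ∑ b, A a b * (cd A a b - c) * G a b|
      ≤ ∑ a, |∑ b, A a b * (cd A a b - c) * G a b| := Finset.abs_sum_le_sum_abs _ _
    _ ≤ ∑ a, ∑ b, |A a b * (cd A a b - c) * G a b| :=
        Finset.sum_le_sum (fun a _ => Finset.abs_sum_le_sum_abs _ _)
    _ ≤ ∑ a, ∑ b, M * (A a b * |cd A a b - c|) := by
        refine Finset.sum_le_sum (fun a _ => Finset.sum_le_sum (fun b _ => ?_))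
        rw [abs_mul, abs_mul, abs_of_nonneg (h0 a b)]
        calc A a b * |cd A a b - c| * |G a b| ≤ A a b * |cd A a b - c| * M :=
              mul_le_mul_of_nonneg_left (hG a b) (mul_nonneg (h0 _ _) (abs_nonneg _))
          _ = _ := by ring
    _ = M * ∑ a, ∑ b, A a b * |cd A a b - c| := by
        rw [Finset.mul_sum]
        exact Finset.sum_congr rfl (fun a _ => by rw [Finset.mul_sum])
    _ ≤ M * R := mul_le_mul_of_nonneg_left hR hM

/-- Product of two nearly constant functions. -/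
theorem prod_near (X Y : V → ℝ) (α β n R : ℝ) (hX0 : ∀ x, 0 ≤ X x) (hXn : ∀ x, X x ≤ n)
    (hβ : 0 ≤ β) (hX : ∑ x, |X x - α| ≤ R) (hY : ∑ x, |Y x - β| ≤ R)
    (hn : 0 ≤ n) :
    |∑ x, X x * Y x - (∑ _x : V, α * β)| ≤ n * R + β * R := by
  rw [← Finset.sum_sub_distrib]
  calc |∑ x, (X x * Y x - α * β)| ≤ ∑ x, |X x * Y x - α * β| := Finset.abs_sum_le_sum_abs _ _
    _ ≤ ∑ x, (n * |Y x - β| + β * |X x - α|) := by
        refine Finset.sum_le_sum (fun x _ => ?_)
        have e : X x * Y x - α * β = X x * (Y x - β) + β * (X x - α) := by ring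
        rw [e]
        refine (abs_add_le _ _).trans ?_
        rw [abs_mul, abs_mul, abs_of_nonneg (hX0 x), abs_of_nonneg hβ]
        have := mul_le_mul_of_nonneg_right (hXn x) (abs_nonneg (Y x - β))
        linarith
    _ = n * ∑ x, |Y x - β| + β * ∑ x, |X x - α| := by
        rw [Finset.sum_add_distrib, Finset.mul_sum, Finset.mul_sum]
    _ ≤ _ := add_le_add (mul_le_mul_of_nonneg_left hY hn) (mul_le_mul_of_nonneg_left hX hβ)

end gen

section main

variable {V : Type} [Fintype V] [DecidableEq V] (S : Sys V) (W : V → V → ℝ)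

theorem sum_le_card (g : V → ℝ) (h : ∀ x, g x ≤ 1) : ∑ x, g x ≤ (Fintype.card V : ℝ) := by
  calc ∑ x, g x ≤ ∑ _x : V, (1 : ℝ) := Finset.sum_le_sum (fun x _ => h x)
    _ = _ := by simp

/-- rotation for functions of the third vertex -/
theorem rot1 (F : V → ℝ) : ∑ x, ∑ y, S.A x y * F (S.f x y) = ∑ x, ∑ y, S.A x y * F x :=
  S.sum_rot (fun _ _ z => F z)

theorem sumA_le (F : V → ℝ) (hF : ∀ x, 0 ≤ F x) :
    ∑ x, ∑ y, S.A x y * F x ≤ (Fintype.card V : ℝ) * ∑ x, F x := by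
  rw [Finset.mul_sum]
  refine Finset.sum_le_sum (fun x _ => ?_)
  rw [← Finset.sum_mul]
  exact mul_le_mul_of_nonneg_right (sum_le_card _ (fun y => S.A_le_one x y)) (hF x)

theorem sumA_symm (F : V → ℝ) : ∑ x, ∑ y, S.A x y * F y = ∑ x, ∑ y, S.A x y * F x := by
  rw [Finset.sum_comm]
  refine Finset.sum_congr rfl (fun x _ => Finset.sum_congr rfl (fun y _ => ?_))
  rw [S.symm y x]

/-- Inner products along edges are near `n/12`. -/
theorem inner_near (t : ℝ) (h : HH S W t) :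
    ∑ u, ∑ v, S.A u v * |∑ y, W u y * W v y - (Fintype.card V : ℝ) / 12| ≤
      (9 / 2) * t * (Fintype.card V : ℝ) ^ 3 := by
  set n : ℝ := (Fintype.card V : ℝ) with hn
  have hn0 : 0 ≤ n := Nat.cast_nonneg _
  have hcard : ∑ _y : V, (1 : ℝ) = n := by simp [hn]
  have key : ∀ u v, S.A u v * |∑ y, W u y * W v y - n / 12| ≤
      2 * (S.A u v * ∑ y, |W u y + W v y + W (S.f u v) y - 1|) +
        S.A u v * |∑ y, W (S.f u v) y - n / 3| +
        (1 / 2) * (S.A u v * |∑ y, (W (S.f u v) y) ^ 2 - n / 6|) +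
        (1 / 2) * (S.A u v * |∑ y, (W u y) ^ 2 - n / 6|) +
        (1 / 2) * (S.A u v * |∑ y, (W v y) ^ 2 - n / 6|) := by
    intro u v
    have hA := S.A_nonneg u v
    suffices hh : |∑ y, W u y * W v y - n / 12| ≤
        2 * (∑ y, |W u y + W v y + W (S.f u v) y - 1|) + |∑ y, W (S.f u v) y - n / 3| +
        (1 / 2) * |∑ y, (W (S.f u v) y) ^ 2 - n / 6| + (1 / 2) * |∑ y, (W u y) ^ 2 - n / 6| +
        (1 / 2) * |∑ y, (W v y) ^ 2 - n / 6| by
      have := mul_le_mul_of_nonneg_left hh hA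
      linarith
    have e1 : 2 * ∑ y, W u y * W v y =
        ∑ y, ((W u y + W v y + W (S.f u v) y - 1) ^ 2 +
          2 * ((W u y + W v y + W (S.f u v) y - 1) * (1 - W (S.f u v) y))) + n
          - 2 * ∑ y, W (S.f u v) y + ∑ y, (W (S.f u v) y) ^ 2 - ∑ y, (W u y) ^ 2 -
          ∑ y, (W v y) ^ 2 := by
      rw [← hcard, Finset.mul_sum, Finset.mul_sum, ← Finset.sum_add_distrib,
        ← Finset.sum_sub_distrib, ← Finset.sum_add_distrib, ← Finset.sum_sub_distrib,
        ← Finset.sum_sub_distrib]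
      refine Finset.sum_congr rfl (fun y _ => ?_)
      ring
    have e2 : |∑ y, ((W u y + W v y + W (S.f u v) y - 1) ^ 2 +
          2 * ((W u y + W v y + W (S.f u v) y - 1) * (1 - W (S.f u v) y)))| ≤
        4 * ∑ y, |W u y + W v y + W (S.f u v) y - 1| := by
      refine (Finset.abs_sum_le_sum_abs _ _).trans ?_
      rw [Finset.mul_sum]
      refine Finset.sum_le_sum (fun y _ => ?_)
      have a0 := h.W0 u y
      have a1 := h.W1 u y
      have b0 := h.W0 v y
      have b1 := h.W1 v y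
      have c0 := h.W0 (S.f u v) y
      have c1 := h.W1 (S.f u v) y
      set g := W u y + W v y + W (S.f u v) y - 1 with hg
      set c := W (S.f u v) y with hc
      have e3 : g ^ 2 + 2 * (g * (1 - c)) = g * (g + 2 * (1 - c)) := by ring
      rw [e3, abs_mul, mul_comm]
      have e4 : |g + 2 * (1 - c)| ≤ 4 := by
        rw [abs_le]
        constructor <;> linarith
      exact mul_le_mul_of_nonneg_right e4 (abs_nonneg _)
    have r1 := abs_le.mp e2
    have r2 := abs_le.mp (le_refl |∑ y, W (S.f u v) y - n / 3|)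
    have r3 := abs_le.mp (le_refl |∑ y, (W (S.f u v) y) ^ 2 - n / 6|)
    have r4 := abs_le.mp (le_refl |∑ y, (W u y) ^ 2 - n / 6|)
    have r5 := abs_le.mp (le_refl |∑ y, (W v y) ^ 2 - n / 6|)
    rw [abs_le]
    constructor
    · linarith [r1.1, r1.2, r2.1, r2.2, r3.1, r3.2, r4.1, r4.2, r5.1, r5.2]
    · linarith [r1.1, r1.2, r2.1, r2.2, r3.1, r3.2, r4.1, r4.2, r5.1, r5.2]
  have s1 : ∑ u, ∑ v, S.A u v * |∑ y, W u y * W v y - n / 12| ≤
      2 * (∑ u, ∑ v, S.A u v * ∑ y, |W u y + W v y + W (S.f u v) y - 1|) +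
        (∑ u, ∑ v, S.A u v * |∑ y, W (S.f u v) y - n / 3|) +
        (1 / 2) * (∑ u, ∑ v, S.A u v * |∑ y, (W (S.f u v) y) ^ 2 - n / 6|) +
        (1 / 2) * (∑ u, ∑ v, S.A u v * |∑ y, (W u y) ^ 2 - n / 6|) +
        (1 / 2) * (∑ u, ∑ v, S.A u v * |∑ y, (W v y) ^ 2 - n / 6|) := by
    simp only [Finset.mul_sum (s := univ) (a := (2 : ℝ)),
      Finset.mul_sum (s := univ) (a := ((1 : ℝ) / 2)), ← Finset.sum_add_distrib]
    refine Finset.sum_le_sum (fun u _ => Finset.sum_le_sum (fun v _ => ?_))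
    have := key u v
    simpa only [Finset.mul_sum (s := univ) (a := (2 : ℝ)),
      Finset.mul_sum (s := univ) (a := ((1 : ℝ) / 2))] using this
  have s2 : ∑ u, ∑ v, S.A u v * |∑ y, W (S.f u v) y - n / 3| ≤ n * (t * n ^ 2) := by
    rw [rot1 S (fun z => |∑ y, W z y - n / 3|)]
    exact (sumA_le S _ (fun _ => abs_nonneg _)).trans (mul_le_mul_of_nonneg_left h.h2' hn0)
  have s3 : ∑ u, ∑ v, S.A u v * |∑ y, (W (S.f u v) y) ^ 2 - n / 6| ≤ n * (t * n ^ 2) := by
    rw [rot1 S (fun z => |∑ y, (W z y) ^ 2 - n / 6|)]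
    exact (sumA_le S _ (fun _ => abs_nonneg _)).trans (mul_le_mul_of_nonneg_left h.h3 hn0)
  have s4 : ∑ u, ∑ v, S.A u v * |∑ y, (W u y) ^ 2 - n / 6| ≤ n * (t * n ^ 2) :=
    (sumA_le S _ (fun _ => abs_nonneg _)).trans (mul_le_mul_of_nonneg_left h.h3 hn0)
  have s5 : ∑ u, ∑ v, S.A u v * |∑ y, (W v y) ^ 2 - n / 6| ≤ n * (t * n ^ 2) := by
    rw [sumA_symm S (fun z => |∑ y, (W z y) ^ 2 - n / 6|)]
    exact s4
  have s6 := h.h1
  rw [← hn] at s6
  calc ∑ u, ∑ v, S.A u v * |∑ y, W u y * W v y - n / 12| ≤ _ := s1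
    _ ≤ 2 * (t * n ^ 3) + n * (t * n ^ 2) + (1 / 2) * (n * (t * n ^ 2)) +
        (1 / 2) * (n * (t * n ^ 2)) + (1 / 2) * (n * (t * n ^ 2)) := by linarith
    _ = (9 / 2) * t * n ^ 3 := by ring

/-- All estimates on triangle sums: `∑_tri ‖W u - W (f a b)‖²` is small. -/
theorem tri_small (t : ℝ) (ht : 0 ≤ t) (h : HH S W t) :
    ts S.A (fun a b u => ∑ y, (W u y - W (S.f a b) y) ^ 2) ≤
      13 * t * (Fintype.card V : ℝ) ^ 4 := by
  set n : ℝ := (Fintype.card V : ℝ) with hn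
  have hn0 : 0 ≤ n := Nat.cast_nonneg _
  have hA0 : ∀ x y, 0 ≤ S.A x y := fun x y => S.A_nonneg x y
  have hA1 : ∀ x y, S.A x y ≤ 1 := fun x y => S.A_le_one x y
  have hcard : ∀ c : ℝ, ∑ _y : V, c = n * c := by
    intro c; simp [hn]
  -- bounds of the quantities
  have hs0 : ∀ a b, 0 ≤ ∑ y, W a y * W b y := fun a b =>
    Finset.sum_nonneg (fun y _ => mul_nonneg (h.W0 a y) (h.W0 b y))
  have hs1 : ∀ a b, ∑ y, W a y * W b y ≤ n := fun a b =>
    sum_le_card _ (fun y => by nlinarith [h.W0 a y, h.W0 b y, h.W1 a y, h.W1 b y])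
  have hE0 : ∀ a, 0 ≤ ∑ y, (W a y) ^ 2 := fun a => Finset.sum_nonneg (fun y _ => sq_nonneg _)
  have hE1 : ∀ a, ∑ y, (W a y) ^ 2 ≤ n := fun a =>
    sum_le_card _ (fun y => by nlinarith [h.W0 a y, h.W1 a y])
  have hB0 : ∀ a, 0 ≤ ∑ y, W a y := fun a => Finset.sum_nonneg (fun y _ => h.W0 a y)
  have hB1 : ∀ a, ∑ y, W a y ≤ n := fun a => sum_le_card _ (fun y => h.W1 a y)
  have hD0 : ∀ a, 0 ≤ ∑ y, S.A a y := fun a => Finset.sum_nonneg (fun y _ => hA0 a y)
  have hD1 : ∀ a, ∑ y, S.A a y ≤ n := fun a => sum_le_card _ (fun y => hA1 a y)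
  have h4 : ∑ a, ∑ b, S.A a b * |cd S.A a b - n / 12| ≤ t * n ^ 3 := h.h4
  -- triangle sums
  have T1 := abs_le.mp (kc hA0 (fun a b => ∑ y, W a y * W b y) n (t * n ^ 3) (n / 12)
    (fun a b => by rw [abs_of_nonneg (hs0 a b)]; exact hs1 a b) h4 hn0)
  have T3 := abs_le.mp (kc hA0 (fun _ b => ∑ y, W b y) n (t * n ^ 3) (n / 12)
    (fun a b => by rw [abs_of_nonneg (hB0 b)]; exact hB1 b) h4 hn0)
  have U1 := abs_le.mp (kc hA0 (fun _ b => ∑ y, (W b y) ^ 2) n (t * n ^ 3) (n / 12)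
    (fun a b => by rw [abs_of_nonneg (hE0 b)]; exact hE1 b) h4 hn0)
  have U2 := abs_le.mp (kc hA0 (fun a b => ∑ y, (W (S.f a b) y) ^ 2) n (t * n ^ 3) (n / 12)
    (fun a b => by rw [abs_of_nonneg (hE0 _)]; exact hE1 _) h4 hn0)
  have T0 := abs_le.mp (kc hA0 (fun _ _ => (1 : ℝ)) 1 (t * n ^ 3) (n / 12)
    (fun a b => by norm_num) h4 zero_le_one)
  -- sums of products
  have P1 := abs_le.mp (prod_near (fun x => ∑ y, S.A x y) (fun x => ∑ y, W x y) (n / 3) (n / 3) n
    (t * n ^ 2) hD0 hD1 (by positivity) h.h2 h.h2' hn0)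
  have P2 := abs_le.mp (prod_near (fun x => ∑ y, S.A x y) (fun x => ∑ y, (W x y) ^ 2) (n / 3) (n / 6)
    n (t * n ^ 2) hD0 hD1 (by positivity) h.h2 h.h3 hn0)
  have P0 : ∑ x, ∑ y, S.A x y ≤ n ^ 2 / 3 + t * n ^ 2 := by
    have e : ∑ x, ∑ y, S.A x y - n * (n / 3) = ∑ x, (∑ y, S.A x y - n / 3) := by
      rw [Finset.sum_sub_distrib, hcard]
    have e2 : ∑ x, (∑ y, S.A x y - n / 3) ≤ ∑ x, |∑ y, S.A x y - n / 3| :=
      Finset.sum_le_sum (fun x _ => le_abs_self _)
    have e3 : ∑ x, |∑ y, S.A x y - n / 3| ≤ t * n ^ 2 := h.h2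
    linarith
  rw [hcard] at P1 P2
  -- rewriting of the sums over A
  have q1 : ∑ a, ∑ b, S.A a b * ∑ y, W b y = ∑ x, (∑ y, S.A x y) * ∑ y, W x y := by
    rw [sumA_symm S (fun b => ∑ y, W b y)]
    exact Finset.sum_congr rfl (fun x _ => by rw [Finset.sum_mul])
  have q2 : ∑ a, ∑ b, S.A a b * ∑ y, (W b y) ^ 2 = ∑ x, (∑ y, S.A x y) * ∑ y, (W x y) ^ 2 := by
    rw [sumA_symm S (fun b => ∑ y, (W b y) ^ 2)]
    exact Finset.sum_congr rfl (fun x _ => by rw [Finset.sum_mul])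
  have q3 : ∑ a, ∑ b, S.A a b * ∑ y, (W (S.f a b) y) ^ 2 =
      ∑ x, (∑ y, S.A x y) * ∑ y, (W x y) ^ 2 := by
    rw [rot1 S (fun b => ∑ y, (W b y) ^ 2)]
    exact Finset.sum_congr rfl (fun x _ => by rw [Finset.sum_mul])
  have h5 : ∑ x, ∑ x', S.A x x' * ∑ y, W x y * W x' y ≤
      ∑ x, ∑ x', S.A x x' * cd S.A x x' + t * n ^ 3 := h.h5
  simp only [mul_one] at T0
  -- the three terms
  have eT1 := ts_au S.symm (fun a u => ∑ y, W a y * W u y)
  have eT2 := ts_bu S.symm (fun a u => ∑ y, W a y * W u y)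
  have eT3 := ts_au S.symm (fun _ u => ∑ y, W u y)
  have eU1 := ts_au S.symm (fun _ u => ∑ y, (W u y) ^ 2)
  have eU2 := ts_ab S.symm (fun a b => ∑ y, (W (S.f a b) y) ^ 2)
  -- the relation T1 + T2 + T4 = T3 up to an error
  have hrel : ts S.A (fun a b u => ∑ y, W u y) - ts S.A (fun a b u => ∑ y, W a y * W u y) -
      ts S.A (fun a b u => ∑ y, W b y * W u y) -
      ts S.A (fun a b u => ∑ y, W (S.f a b) y * W u y) ≤ n * (t * n ^ 3) := by
    rw [← ts_sub, ← ts_sub, ← ts_sub]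
    have e1 : ts S.A (fun a b u => ∑ y, W u y - ∑ y, W a y * W u y - ∑ y, W b y * W u y -
        ∑ y, W (S.f a b) y * W u y) ≤
        ts S.A (fun a b _ => ∑ y, |W a y + W b y + W (S.f a b) y - 1|) := by
      refine ts_mono hA0 (fun a b u => ?_)
      rw [← Finset.sum_sub_distrib, ← Finset.sum_sub_distrib, ← Finset.sum_sub_distrib]
      refine Finset.sum_le_sum (fun y _ => ?_)
      have e : W u y - W a y * W u y - W b y * W u y - W (S.f a b) y * W u y =
        - (W a y + W b y + W (S.f a b) y - 1) * W u y := by ring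
      rw [e]
      have u0 := h.W0 u y
      have u1 := h.W1 u y
      have g1 := neg_abs_le (W a y + W b y + W (S.f a b) y - 1)
      have g2 := abs_nonneg (W a y + W b y + W (S.f a b) y - 1)
      nlinarith
    refine e1.trans ?_
    have e2 : ts S.A (fun a b _ => ∑ y, |W a y + W b y + W (S.f a b) y - 1|) ≤
        n * ∑ a, ∑ b, S.A a b * ∑ y, |W a y + W b y + W (S.f a b) y - 1| := by
      unfold ts
      rw [Finset.mul_sum]
      refine Finset.sum_le_sum (fun a _ => ?_)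
      rw [Finset.mul_sum]
      refine Finset.sum_le_sum (fun b _ => ?_)
      rw [← hcard]
      refine Finset.sum_le_sum (fun u _ => ?_)
      have g2 : 0 ≤ ∑ y, |W a y + W b y + W (S.f a b) y - 1| :=
        Finset.sum_nonneg (fun y _ => abs_nonneg _)
      have g3 : S.A a b * S.A a u * S.A b u ≤ S.A a b := by
        have := hA1 a u
        have := hA1 b u
        have := hA0 a u
        have := hA0 b u
        have := hA0 a b
        have g4 : S.A a u * S.A b u ≤ 1 := by nlinarith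
        nlinarith
      exact mul_le_mul_of_nonneg_right g3 g2
    exact e2.trans (mul_le_mul_of_nonneg_left h.h1 hn0)
  have hsplit : ts S.A (fun a b u => ∑ y, (W u y - W (S.f a b) y) ^ 2) =
      ts S.A (fun a b u => ∑ y, (W u y) ^ 2) + ts S.A (fun a b u => ∑ y, (W (S.f a b) y) ^ 2) -
      2 * ts S.A (fun a b u => ∑ y, W (S.f a b) y * W u y) := by
    rw [← ts_add, ← ts_smul, ← ts_sub]
    unfold ts
    refine Finset.sum_congr rfl (fun a _ => Finset.sum_congr rfl (fun b _ =>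
      Finset.sum_congr rfl (fun u _ => ?_)))
    congr 1
    beta_reduce
    rw [Finset.mul_sum, ← Finset.sum_add_distrib, ← Finset.sum_sub_distrib]
    refine Finset.sum_congr rfl (fun y _ => ?_)
    ring
  rw [hsplit]
  rw [eT1, eT2, eT3] at hrel
  rw [eU1, eU2]
  rw [q1] at T3
  rw [q2] at U1
  rw [q3] at U2
  have tn3 : 0 ≤ t * n ^ 3 := by positivity
  -- multiply the product estimates by n/12
  have m1 := mul_le_mul_of_nonneg_left P1.1 (show 0 ≤ n / 12 by positivity)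
  have m2 := mul_le_mul_of_nonneg_left P2.2 (show 0 ≤ n / 12 by positivity)
  have m3 : ∑ x, ∑ x', S.A x x' * ∑ y, W x y * W x' y ≤
      n / 12 * (n ^ 2 / 3 + t * n ^ 2) + 1 * (t * n ^ 3) + t * n ^ 3 := by
    have := mul_le_mul_of_nonneg_left P0 (show 0 ≤ n / 12 by positivity)
    linarith [T0.2]
  have m4 := mul_le_mul_of_nonneg_left m3 (show 0 ≤ n / 12 by positivity)
  have tn4 : 0 ≤ t * n ^ 4 := by positivity
  ring_nf at m1 m2 m3 m4 T1 T3 U1 U2 hrel ⊢
  linarith [T1.2, T3.1, U1.2, U2.2, m1, m2, m4, hrel]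

theorem N4_eq (A : V → V → ℝ) : N4 A = ks A (fun _ _ _ _ => 1) := by
  simp only [N4, ks, mul_one]

/-- Estimate of a sum over `K_4` by the sum over pairs `u v`. -/
theorem ks_uv (A : V → V → ℝ) (hA0 : ∀ x y, 0 ≤ A x y) (hA1 : ∀ x y, A x y ≤ 1)
    (G : V → V → ℝ) (hG : ∀ u v, 0 ≤ G u v) :
    ks A (fun _ _ u v => G u v) ≤
      (Fintype.card V : ℝ) ^ 2 * ∑ u, ∑ v, A u v * G u v := by
  have e : ∀ a b : V, ∑ u, ∑ v, A a b * A a u * A b u * (A a v * A b v * A u v) * G u v ≤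
      ∑ u, ∑ v, A u v * G u v := by
    intro a b
    refine Finset.sum_le_sum (fun u _ => Finset.sum_le_sum (fun v _ => ?_))
    refine mul_le_mul_of_nonneg_right ?_ (hG u v)
    have m1 : A a b * A a u ≤ 1 := mul_le_one₀ (hA1 _ _) (hA0 _ _) (hA1 _ _)
    have m2 : A a b * A a u * A b u ≤ 1 := mul_le_one₀ m1 (hA0 _ _) (hA1 _ _)
    have m3 : A a v * A b v ≤ 1 := mul_le_one₀ (hA1 _ _) (hA0 _ _) (hA1 _ _)
    have m0 : 0 ≤ A a b * A a u * A b u := mul_nonneg (mul_nonneg (hA0 _ _) (hA0 _ _)) (hA0 _ _)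
    calc A a b * A a u * A b u * (A a v * A b v * A u v)
        ≤ 1 * (1 * A u v) := by
          refine mul_le_mul m2 (mul_le_mul_of_nonneg_right m3 (hA0 _ _)) ?_ zero_le_one
          exact mul_nonneg (mul_nonneg (hA0 _ _) (hA0 _ _)) (hA0 _ _)
      _ = A u v := by ring
  calc ks A (fun _ _ u v => G u v) ≤ ∑ _a : V, ∑ _b : V, ∑ u, ∑ v, A u v * G u v :=
        Finset.sum_le_sum (fun a _ => Finset.sum_le_sum (fun b _ => e a b))
    _ = _ := by
        simp only [Finset.sum_const, Finset.card_univ, nsmul_eq_mul]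
        ring

theorem ks_u (A : V → V → ℝ) (hA0 : ∀ x y, 0 ≤ A x y) (hA1 : ∀ x y, A x y ≤ 1)
    (G : V → ℝ) (hG : ∀ u, 0 ≤ G u) :
    ks A (fun _ _ u _ => G u) ≤ (Fintype.card V : ℝ) ^ 3 * ∑ u, G u := by
  refine (ks_uv A hA0 hA1 (fun u _ => G u) (fun u _ => hG u)).trans ?_
  have e : ∑ u, ∑ v, A u v * G u ≤ (Fintype.card V : ℝ) * ∑ u, G u := by
    rw [Finset.mul_sum]
    refine Finset.sum_le_sum (fun x _ => ?_)
    rw [← Finset.sum_mul]
    exact mul_le_mul_of_nonneg_right (sum_le_card _ (fun y => hA1 x y)) (hG x)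
  calc (Fintype.card V : ℝ) ^ 2 * ∑ u, ∑ v, A u v * G u
      ≤ (Fintype.card V : ℝ) ^ 2 * ((Fintype.card V : ℝ) * ∑ u, G u) :=
        mul_le_mul_of_nonneg_left e (by positivity)
    _ = _ := by ring

/-- A function of the triangle `a b u` summed over `K_4`. -/
theorem ks_abu (A : V → V → ℝ) (hA0 : ∀ x y, 0 ≤ A x y) (hA1 : ∀ x y, A x y ≤ 1)
    (Q : V → V → V → ℝ) (hQ : ∀ a b u, 0 ≤ Q a b u) :
    ks A (fun a b u _ => Q a b u) ≤ (Fintype.card V : ℝ) * ts A Q := by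
  unfold ks ts
  rw [Finset.mul_sum]
  refine Finset.sum_le_sum (fun a _ => ?_)
  rw [Finset.mul_sum]
  refine Finset.sum_le_sum (fun b _ => ?_)
  rw [Finset.mul_sum]
  refine Finset.sum_le_sum (fun u _ => ?_)
  have e : ∀ v, A a b * A a u * A b u * (A a v * A b v * A u v) * Q a b u ≤
      A a b * A a u * A b u * Q a b u := by
    intro v
    refine mul_le_mul_of_nonneg_right ?_ (hQ _ _ _)
    have m3 : A a v * A b v ≤ 1 := mul_le_one₀ (hA1 _ _) (hA0 _ _) (hA1 _ _)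
    have m4 : A a v * A b v * A u v ≤ 1 := mul_le_one₀ m3 (hA0 _ _) (hA1 _ _)
    have m0 : 0 ≤ A a b * A a u * A b u := mul_nonneg (mul_nonneg (hA0 _ _) (hA0 _ _)) (hA0 _ _)
    have := mul_le_mul_of_nonneg_left m4 m0
    linarith
  calc ∑ v, A a b * A a u * A b u * (A a v * A b v * A u v) * Q a b u
      ≤ ∑ _v : V, A a b * A a u * A b u * Q a b u := Finset.sum_le_sum (fun v _ => e v)
    _ = _ := by simp

end main

theorem few (V : Type) [Fintype V] [DecidableEq V] (S : Sys V) (W : V → V → ℝ) (t : ℝ)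
    (ht : 0 ≤ t) (h : HH S W t) : N4 S.A ≤ 504 * t * (Fintype.card V : ℝ) ^ 4 := by
  set n : ℝ := (Fintype.card V : ℝ) with hn
  have hn0 : 0 ≤ n := Nat.cast_nonneg _
  have hA0 : ∀ x y, 0 ≤ S.A x y := fun x y => S.A_nonneg x y
  have hA1 : ∀ x y, S.A x y ≤ 1 := fun x y => S.A_le_one x y
  -- upper bound of the sum of the distances
  have up : ks S.A (fun _ _ u v => ∑ y, (W u y - W v y) ^ 2) ≤ 52 * t * n ^ 5 := by
    have e1 : ks S.A (fun _ _ u v => ∑ y, (W u y - W v y) ^ 2) ≤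
        ks S.A (fun a b u v => 2 * ∑ y, (W u y - W (S.f a b) y) ^ 2 +
          2 * ∑ y, (W v y - W (S.f a b) y) ^ 2) := by
      refine ks_mono hA0 (fun a b u v => ?_)
      rw [Finset.mul_sum, Finset.mul_sum, ← Finset.sum_add_distrib]
      refine Finset.sum_le_sum (fun y _ => ?_)
      nlinarith [sq_nonneg (W u y - W (S.f a b) y + (W v y - W (S.f a b) y))]
    have e2 : ks S.A (fun a b u v => 2 * ∑ y, (W u y - W (S.f a b) y) ^ 2 +
          2 * ∑ y, (W v y - W (S.f a b) y) ^ 2) =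
        4 * ks S.A (fun a b u _ => ∑ y, (W u y - W (S.f a b) y) ^ 2) := by
      rw [ks_add S.A (fun a b u _ => 2 * ∑ y, (W u y - W (S.f a b) y) ^ 2)
        (fun a b _ v => 2 * ∑ y, (W v y - W (S.f a b) y) ^ 2),
        ks_smul S.A 2 (fun a b u _ => ∑ y, (W u y - W (S.f a b) y) ^ 2),
        ks_smul S.A 2 (fun a b _ v => ∑ y, (W v y - W (S.f a b) y) ^ 2),
        ks_swap S.symm (fun a b _ v => ∑ y, (W v y - W (S.f a b) y) ^ 2)]
      ring
    have e3 := ks_abu S.A hA0 hA1 (fun a b u => ∑ y, (W u y - W (S.f a b) y) ^ 2)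
      (fun a b u => Finset.sum_nonneg (fun y _ => sq_nonneg _))
    have e4 := mul_le_mul_of_nonneg_left (tri_small S W t ht h) hn0
    rw [← hn] at e3 e4
    calc _ ≤ _ := e1
      _ = _ := e2
      _ ≤ 4 * (n * (13 * t * n ^ 4)) := by linarith
      _ = _ := by ring
  -- expansion
  have ex : ks S.A (fun _ _ u v => ∑ y, (W u y - W v y) ^ 2) =
      2 * ks S.A (fun _ _ u _ => ∑ y, (W u y) ^ 2) -
        2 * ks S.A (fun _ _ u v => ∑ y, W u y * W v y) := by
    have e0 : ks S.A (fun _ _ _ v => ∑ y, (W v y) ^ 2) = ks S.A (fun _ _ u _ => ∑ y, (W u y) ^ 2) :=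
      ks_swap S.symm (fun _ _ _ v => ∑ y, (W v y) ^ 2)
    have e1 : ks S.A (fun _ _ u v => ∑ y, (W u y - W v y) ^ 2) =
        ks S.A (fun _ _ u _ => ∑ y, (W u y) ^ 2) + ks S.A (fun _ _ _ v => ∑ y, (W v y) ^ 2) -
        2 * ks S.A (fun _ _ u v => ∑ y, W u y * W v y) := by
      rw [← ks_add, ← ks_smul, ← ks_sub]
      unfold ks
      refine Finset.sum_congr rfl (fun a _ => Finset.sum_congr rfl (fun b _ =>
        Finset.sum_congr rfl (fun u _ => Finset.sum_congr rfl (fun v _ => ?_))))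
      congr 1
      beta_reduce
      rw [Finset.mul_sum, ← Finset.sum_add_distrib, ← Finset.sum_sub_distrib]
      refine Finset.sum_congr rfl (fun y _ => ?_)
      ring
    rw [e1, e0]
    ring
  -- lower bound of the energies
  have lo : n / 6 * N4 S.A - t * n ^ 5 ≤ ks S.A (fun _ _ u _ => ∑ y, (W u y) ^ 2) := by
    rw [N4_eq, ← ks_smul]
    have e1 := ks_u S.A hA0 hA1 (fun u => |∑ y, (W u y) ^ 2 - n / 6|) (fun u => abs_nonneg _)
    have e2 : ks S.A (fun _ _ _ _ => n / 6 * 1) - ks S.A (fun _ _ u _ => ∑ y, (W u y) ^ 2) ≤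
        ks S.A (fun _ _ u _ => |∑ y, (W u y) ^ 2 - n / 6|) := by
      rw [← ks_sub]
      refine ks_mono hA0 (fun a b u v => ?_)
      have := neg_abs_le (∑ y, (W u y) ^ 2 - n / 6)
      linarith
    have e3 : n ^ 3 * ∑ u, |∑ y, (W u y) ^ 2 - n / 6| ≤ n ^ 3 * (t * n ^ 2) :=
      mul_le_mul_of_nonneg_left h.h3 (by positivity)
    have e4 : n ^ 3 * (t * n ^ 2) = t * n ^ 5 := by ring
    rw [← hn] at e1
    linarith
  -- upper bound of the inner products
  have hi : ks S.A (fun _ _ u v => ∑ y, W u y * W v y) ≤ n / 12 * N4 S.A + (9 / 2) * t * n ^ 5 := by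
    rw [N4_eq, ← ks_smul]
    have e1 := ks_uv S.A hA0 hA1 (fun u v => |∑ y, W u y * W v y - n / 12|)
      (fun u v => abs_nonneg _)
    have e2 : ks S.A (fun _ _ u v => ∑ y, W u y * W v y) - ks S.A (fun _ _ _ _ => n / 12 * 1) ≤
        ks S.A (fun _ _ u v => |∑ y, W u y * W v y - n / 12|) := by
      rw [← ks_sub]
      refine ks_mono hA0 (fun a b u v => ?_)
      have := le_abs_self (∑ y, W u y * W v y - n / 12)
      linarith
    have e3 : n ^ 2 * ∑ u, ∑ v, S.A u v * |∑ y, W u y * W v y - n / 12| ≤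
        n ^ 2 * ((9 / 2) * t * n ^ 3) :=
      mul_le_mul_of_nonneg_left (inner_near S W t h) (by positivity)
    have e4 : n ^ 2 * ((9 / 2) * t * n ^ 3) = (9 / 2) * t * n ^ 5 := by ring
    rw [← hn] at e1
    linarith
  have fin1 : n * N4 S.A ≤ n * (504 * t * n ^ 4) := by
    rw [ex] at up
    have tn5 : 0 ≤ t * n ^ 5 := by positivity
    have e : n * (504 * t * n ^ 4) = 504 * (t * n ^ 5) := by ring
    rw [e]
    linarith
  rcases eq_or_lt_of_le hn0 with h0 | h0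
  · have hc : Fintype.card V = 0 := by
      have : (Fintype.card V : ℝ) = 0 := by rw [← hn, ← h0]
      exact_mod_cast this
    have hemp : IsEmpty V := Fintype.card_eq_zero_iff.mp hc
    rw [← h0]
    simp [N4]
  · exact le_of_mul_le_mul_left fin1 h0

end Pool.Agent.Helper29.TC
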