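import Pool.Agent.Helper29.TC.Ram
import Pool.Agent.Helper29.TC.Hyp
import Pool.Agent.Helper29.TC.Few
import Pool.Agent.Helper29.TC.Lin
import Pool.Agent.Helper29.TC.Chain
import Pool.Agent.Helper18.SF.Main

set_option autoImplicit false

/-! Assembly. -/

namespace Pool.Agent.Helper29.TC

open Finset Pool.Agent.Helper18.SF

/-- Stability: systems of density at least `1/3 - δ` have few `K_4`. -/
theorem stab (ε : ℝ) (hε : 0 < ε) : ∃ δ : ℝ, 0 < δ ∧ ∃ N : ℕ,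
    ∀ (V : Type) [Fintype V] [DecidableEq V], N ≤ Fintype.card V → ∀ S : Sys V,
      (1 / 3 - δ) * (Fintype.card V : ℝ) ^ 2 ≤ ∑ x, ∑ y, S.A x y →
      N4 S.A ≤ ε * (Fintype.card V : ℝ) ^ 4 := by
  obtain ⟨δ, hδ, N, h⟩ := chain (min 1 ((ε / 50400) ^ 2)) (by positivity)
  refine ⟨δ, hδ, N, fun V _ _ hN S hS => ?_⟩
  obtain ⟨Z, hZ⟩ := h V hN S hS
  have h1 := hyp V S Z _ (by positivity) (min_le_left _ _) hZ
  have h2 := few V S _ _ (by positivity) h1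
  refine h2.trans ?_
  have h3 : Real.sqrt (min 1 ((ε / 50400) ^ 2)) ≤ ε / 50400 := by
    have := Real.sqrt_le_sqrt (min_le_right 1 ((ε / 50400) ^ 2))
    rwa [Real.sqrt_sq (by positivity)] at this
  have h4 : (504 * (100 * Real.sqrt (min 1 ((ε / 50400) ^ 2)))) ≤ ε := by linarith
  exact mul_le_mul_of_nonneg_right h4 (by positivity)

theorem three_colours : ∃ δ : ℝ, 0 < δ ∧ ∃ N : ℕ, ∀ (V : Type) [Fintype V] [DecidableEq V],
    N ≤ Fintype.card V → ∀ H : Finset (Finset V), (∀ e ∈ H, e.card = 3) →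
      (∀ e ∈ H, ∀ e' ∈ H, e ≠ e' → (e ∩ e').card ≤ 1) →
      (1 / 6 - δ) * (Fintype.card V : ℝ) ^ 2 ≤ (H.card : ℝ) → ∀ χ : Finset V → Fin 3,
      ∃ F ⊆ H, F.card = 4 ∧ (∀ e ∈ F, ∀ e' ∈ F, χ e = χ e') ∧ (F.biUnion id).card ≤ 7 := by
  obtain ⟨c, hc, δ1, hδ1, N1, h1⟩ := ramsey_sat
  obtain ⟨δ2, hδ2, N2, h2⟩ := stab (c / 6) (by positivity)
  obtain ⟨N3, h3⟩ := main_sys (δ2 / 4) (by positivity)
  refine ⟨min (δ1 / 6) (δ2 / 12), by positivity, max (max N1 N2) (max N3 1),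
    fun V _ _ hN H hH hl hH6 χ => ?_⟩
  by_contra hcon
  push Not at hcon
  obtain ⟨S, hS1, hS6⟩ := lin_sys H hH hl χ (fun F hF hF4 hFc => hcon F hF hF4 hFc)
  have hn1 : N1 ≤ Fintype.card V := ((le_max_left _ _).trans (le_max_left _ _)).trans hN
  have hn2 : N2 ≤ Fintype.card V := ((le_max_right _ _).trans (le_max_left _ _)).trans hN
  have hn3 : N3 ≤ Fintype.card V := ((le_max_left _ _).trans (le_max_right _ _)).trans hN
  have hn4 : 1 ≤ Fintype.card V := ((le_max_right _ _).trans (le_max_right _ _)).trans hN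
  have hpos : (0 : ℝ) < (Fintype.card V : ℝ) := by exact_mod_cast hn4
  set n : ℝ := (Fintype.card V : ℝ) with hn
  have hn2p : 0 < n ^ 2 := by positivity
  have hm1 := min_le_left (δ1 / 6) (δ2 / 12)
  have hm2 := min_le_right (δ1 / 6) (δ2 / 12)
  have hup : ∀ i, ∑ x, ∑ y, (S i).A x y ≤ (1 / 3 + δ2 / 4) * n ^ 2 := fun i => h3 V hn3 (S i)
  have htot : (1 - δ1) * n ^ 2 ≤ ∑ i, ∑ x, ∑ y, (S i).A x y := by nlinarith
  have htot2 : (1 - δ2 / 2) * n ^ 2 ≤ ∑ i, ∑ x, ∑ y, (S i).A x y := by nlinarith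
  have hfew : ∀ i, N4 (S i).A ≤ c / 6 * n ^ 4 := by
    intro i
    apply h2 V hn2 (S i)
    rw [Fin.sum_univ_three] at htot2
    have u0 := hup 0
    have u1 := hup 1
    have u2 := hup 2
    fin_cases i <;> simp only [Fin.zero_eta, Fin.mk_one, Fin.reduceFinMk] <;> nlinarith
  have hmany := h1 V hn1 (fun i => (S i).A) (fun i => (S i).h01) (fun i => (S i).symm)
    (fun i => (S i).irr) hS1 htot
  have : ∑ i, N4 (S i).A ≤ ∑ _i : Fin 3, c / 6 * n ^ 4 := Finset.sum_le_sum (fun i _ => hfew i)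
  simp only [Finset.sum_const, Finset.card_univ, Fintype.card_fin, nsmul_eq_mul] at this
  have hn4p : 0 < n ^ 4 := by positivity
  have : c * n ^ 4 ≤ (3 : ℕ) * (c / 6 * n ^ 4) := hmany.trans this
  push_cast at this
  nlinarith [mul_pos hc hn4p]

end Pool.Agent.Helper29.TC
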