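import Pool.Agent.Helper29.TC.Base
import Pool.Agent.Helper18.SF.Expl

set_option autoImplicit false

/-! Codegrees are near `n/12` on average. `D v = ∑ y, A v y`, `cd v b = ∑ y, A y v * A y b`.
For `A v b = 1` let `r v b = D v/2 + 1 - cd v b - cd v (f v b)`; `r v b ≥ 0` (`cd_pair`): by sum_swap
`cd v b + cd v (f v b) = (1/2) ∑_{y ∈ N(v)} [A b y + A b (f v y) + A (f v b) y + A (f v b) (f v y)]`,
every bracket is `≤ 1` by `one` unless `y = b` or `y = f v b`, where it is `≤ 2`.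
`∑_A r = ∑ (D^2/2 + D) - 2 ∑_A cd ≤ 2 η n^3` by c7 (`∑_A cd v (f v b) = ∑_A cd v b` by sum_swap).
With `x = f v b`: `cd v b + cd v x = D v/2 + 1 - r v b`, `cd b v + cd b x = D b/2 + 1 - r b v`,
`cd x v + cd x b = D x/2 + 1 - r x v`, hence
`2 cd v b = (D v + D b - D x)/2 + 1 - r v b - r b v + r x v` and
`|2 cd v b - n/6| ≤ (|D v - n/3| + |D b - n/3| + |D x - n/3|)/2 + 1 + r v b + r b v + r x v`;
sum over A with sum_rot, `∑_A 1 ≤ n^2`, `∑_A |D v - n/3| ≤ n ∑_v |D v - n/3|`, `1 ≤ η n`. -/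

namespace Pool.Agent.Helper29.TC

open Finset Pool.Agent.Helper18.SF

theorem cd_pair {V : Type} [Fintype V] [DecidableEq V] (S : Sys V) (v b : V) (h : S.A v b = 1) :
    ∑ y, S.A y v * S.A y b + ∑ y, S.A y v * S.A y (S.f v b) ≤ (∑ y, S.A v y) / 2 + 1 := by
  have hb' : S.A v (S.f v b) = 1 := S.f1 v b h
  have hbb : S.A b (S.f v b) = 1 := S.f3 h
  have hff : S.f v (S.f v b) = b := S.f2 v b h
  have e1 : ∀ c, ∑ y, S.A y v * S.A y c = ∑ y, S.A v y * S.A c y := fun c =>
    Finset.sum_congr rfl fun y _ => by rw [S.symm y v, S.symm y c]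
  have e2 : ∀ c, ∑ y, S.A v y * S.A c (S.f v y) = ∑ y, S.A v y * S.A c y := fun c =>
    S.sum_swap v (S.A c)
  have key : ∀ y, S.A v y * (S.A b y + S.A b (S.f v y) + S.A (S.f v b) y + S.A (S.f v b) (S.f v y)) ≤
      S.A v y + ((if y = b then (1 : ℝ) else 0) + (if y = S.f v b then (1 : ℝ) else 0)) := by
    intro y
    rcases S.h01 v y with h0 | h1
    · rw [h0, zero_mul]
      split_ifs <;> norm_num
    · rw [h1, one_mul]
      by_cases hy : y = b
      · subst hy
        rw [if_pos rfl, S.irr, S.irr, hbb, S.symm (S.f v y) y, hbb]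
        split_ifs <;> norm_num
      · by_cases hy' : y = S.f v b
        · subst hy'
          rw [if_pos rfl, hff, S.irr, S.irr, hbb, S.symm (S.f v b) b, hbb]
          split_ifs <;> norm_num
        · rw [if_neg hy, if_neg hy']
          have := S.one v b y h h1 (Ne.symm hy) hy'
          linarith
  have hs := Finset.sum_le_sum fun y (_ : y ∈ (univ : Finset V)) => key y
  have h3 : ∑ y, S.A v y * (S.A b y + S.A b (S.f v y) + S.A (S.f v b) y + S.A (S.f v b) (S.f v y)) =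
      2 * (∑ y, S.A v y * S.A b y) + 2 * ∑ y, S.A v y * S.A (S.f v b) y := by
    simp only [mul_add, Finset.sum_add_distrib]
    rw [e2 b, e2 (S.f v b)]
    ring
  have h4 : ∑ y, (S.A v y + ((if y = b then (1 : ℝ) else 0) + (if y = S.f v b then (1 : ℝ) else 0))) =
      ∑ y, S.A v y + 2 := by
    rw [Finset.sum_add_distrib, Finset.sum_add_distrib, Finset.sum_ite_eq', Finset.sum_ite_eq']
    simp only [Finset.mem_univ, if_true]
    norm_num
  rw [h3, h4] at hs
  rw [e1, e1]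
  linarith

theorem hyp4 (V : Type) [Fintype V] [DecidableEq V] (S : Sys V) (η t : ℝ)
    (h2 : ∑ x, |∑ y, S.A x y - (Fintype.card V : ℝ) / 3| ≤ t * (Fintype.card V : ℝ) ^ 2)
    (h7 : ∑ x, ((∑ y, S.A x y) ^ 2 / 4 + ∑ y, S.A x y) -
      ∑ x, ∑ x', S.A x x' * ∑ y, S.A y x * S.A y x' ≤ η * (Fintype.card V : ℝ) ^ 3)
    (h8 : 1 ≤ η * (Fintype.card V : ℝ)) :
    ∑ x, ∑ x', S.A x x' * |∑ y, S.A y x * S.A y x' - (Fintype.card V : ℝ) / 12| ≤
      (t + 4 * η) * (Fintype.card V : ℝ) ^ 3 := by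
  set n : ℝ := (Fintype.card V : ℝ) with hn
  have hn0 : 0 ≤ n := Nat.cast_nonneg _
  set D : V → ℝ := fun x => ∑ y, S.A x y with hD
  set cd : V → V → ℝ := fun x x' => ∑ y, S.A y x * S.A y x' with hcd
  set a : V → ℝ := fun x => |D x - n / 3| with ha
  set R : V → V → ℝ := fun v b => D v / 2 + 1 - cd v b - cd v (S.f v b) with hR
  have hcds : ∀ x y, cd x y = cd y x := fun x y => Finset.sum_congr rfl fun u _ => mul_comm _ _
  have hR0 : ∀ v b, S.A v b = 1 → 0 ≤ R v b := by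
    intro v b h
    have := cd_pair S v b h
    simp only [hR, hcd, hD]
    linarith
  -- pointwise
  have key : ∀ v b, S.A v b * |cd v b - n / 12| ≤ S.A v b *
      ((a v + a b + a (S.f v b)) / 4 + (1 + R v b + R b v + R (S.f v b) v) / 2) := by
    intro v b
    rcases S.h01 v b with h | h
    · rw [h, zero_mul, zero_mul]
    rw [h, one_mul, one_mul]
    have hbv : S.A b v = 1 := by rw [S.symm]; exact h
    have hxv : S.A (S.f v b) v = 1 := by rw [S.symm]; exact S.f1 v b h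
    have f1 : S.f b v = S.f v b := S.fs b v hbv
    have f2 : S.f (S.f v b) v = b := by
      rw [S.fs (S.f v b) v hxv]
      exact S.f2 v b h
    have r1 := hR0 v b h
    have r2 := hR0 b v hbv
    have r3 := hR0 (S.f v b) v hxv
    have q1 : R v b = D v / 2 + 1 - cd v b - cd v (S.f v b) := rfl
    have q2 : R b v = D b / 2 + 1 - cd b v - cd b (S.f v b) := by
      simp only [hR]
      rw [f1]
    have q3 : R (S.f v b) v = D (S.f v b) / 2 + 1 - cd (S.f v b) v - cd (S.f v b) b := by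
      simp only [hR]
      rw [f2]
    have s1 := hcds b v
    have s2 := hcds (S.f v b) v
    have s3 := hcds (S.f v b) b
    have a1 := abs_le.1 (le_refl (a v))
    have a2 := abs_le.1 (le_refl (a b))
    have a3 := abs_le.1 (le_refl (a (S.f v b)))
    rw [abs_le]
    constructor <;> linarith [a1.1, a1.2, a2.1, a2.2, a3.1, a3.2]
  -- sums
  have b1 : ∀ F : V → ℝ, ∑ x, ∑ y, S.A x y * F x = ∑ x, D x * F x := by
    intro F
    refine Finset.sum_congr rfl fun x _ => ?_
    rw [hD, Finset.sum_mul]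
  have b2 : ∀ F : V → ℝ, ∑ x, ∑ y, S.A x y * F y = ∑ x, D x * F x := by
    intro F
    rw [← b1, S.sum_right fun _ y => F y]
  have b3 : ∀ F : V → ℝ, ∑ x, ∑ y, S.A x y * F (S.f x y) = ∑ x, D x * F x := by
    intro F
    rw [← b2, S.sum_third fun _ y => F y]
  have hDn : ∀ x, D x ≤ n := by
    intro x
    calc D x ≤ ∑ _y : V, (1 : ℝ) := Finset.sum_le_sum fun y _ => S.A_le_one x y
      _ = n := by rw [Finset.sum_const, Finset.card_univ, nsmul_eq_mul, mul_one]
  have ha1 : ∑ x, D x * a x ≤ t * n ^ 3 := by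
    calc ∑ x, D x * a x ≤ ∑ x, n * a x :=
          Finset.sum_le_sum fun x _ => mul_le_mul_of_nonneg_right (hDn x) (abs_nonneg _)
      _ = n * ∑ x, a x := by rw [Finset.mul_sum]
      _ ≤ n * (t * n ^ 2) := mul_le_mul_of_nonneg_left h2 hn0
      _ = t * n ^ 3 := by ring
  have hone : ∑ x, ∑ y, S.A x y * (1 : ℝ) ≤ η * n ^ 3 := by
    rw [b1 fun _ => 1]
    calc ∑ x, D x * 1 ≤ ∑ _x : V, n := Finset.sum_le_sum fun x _ => by
          rw [mul_one]
          exact hDn x
      _ = 1 * n ^ 2 := by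
          rw [Finset.sum_const, Finset.card_univ, nsmul_eq_mul]
          ring
      _ ≤ (η * n) * n ^ 2 := mul_le_mul_of_nonneg_right h8 (by positivity)
      _ = η * n ^ 3 := by ring
  have hRs : ∑ x, ∑ y, S.A x y * R x y ≤ 2 * η * n ^ 3 := by
    have e1 : ∑ x, ∑ y, S.A x y * R x y =
        ∑ x, D x * (D x / 2 + 1) - ∑ x, ∑ y, S.A x y * cd x y - ∑ x, ∑ y, S.A x y * cd x (S.f x y) := by
      rw [← b1 fun x => D x / 2 + 1, ← Finset.sum_sub_distrib, ← Finset.sum_sub_distrib]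
      refine Finset.sum_congr rfl fun x _ => ?_
      rw [← Finset.sum_sub_distrib, ← Finset.sum_sub_distrib]
      exact Finset.sum_congr rfl fun y _ => by simp only [hR]; ring
    rw [e1, S.sum_third cd]
    have e2 : ∑ x, D x * (D x / 2 + 1) ≤ 2 * ∑ x, ((D x) ^ 2 / 4 + D x) := by
      rw [Finset.mul_sum]
      refine Finset.sum_le_sum fun x _ => ?_
      have : 0 ≤ D x := Finset.sum_nonneg fun y _ => S.A_nonneg x y
      nlinarith
    have e3 : ∑ x, ((D x) ^ 2 / 4 + D x) - ∑ x, ∑ y, S.A x y * cd x y ≤ η * n ^ 3 := h7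
    linarith
  have hR2 : ∑ x, ∑ y, S.A x y * R y x = ∑ x, ∑ y, S.A x y * R x y := (S.sum_right R).symm
  have hR3 : ∑ x, ∑ y, S.A x y * R (S.f x y) x = ∑ x, ∑ y, S.A x y * R x y := by
    have h1 := S.sum_rot fun x _ z => R z x
    rw [h1, S.sum_third R]
  calc ∑ x, ∑ x', S.A x x' * |∑ y, S.A y x * S.A y x' - n / 12|
      ≤ ∑ v, ∑ b, S.A v b *
        ((a v + a b + a (S.f v b)) / 4 + (1 + R v b + R b v + R (S.f v b) v) / 2) :=
        Finset.sum_le_sum fun v _ => Finset.sum_le_sum fun b _ => key v b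
    _ = (∑ v, ∑ b, S.A v b * a v + ∑ v, ∑ b, S.A v b * a b + ∑ v, ∑ b, S.A v b * a (S.f v b)) / 4 +
        (∑ v, ∑ b, S.A v b * (1 : ℝ) + ∑ v, ∑ b, S.A v b * R v b + ∑ v, ∑ b, S.A v b * R b v +
          ∑ v, ∑ b, S.A v b * R (S.f v b) v) / 2 := by
        simp only [← Finset.sum_add_distrib, Finset.sum_div]
        exact Finset.sum_congr rfl fun v _ => Finset.sum_congr rfl fun b _ => by ring
    _ = (3 * ∑ x, D x * a x) / 4 +
        (∑ v, ∑ b, S.A v b * (1 : ℝ) + 3 * ∑ v, ∑ b, S.A v b * R v b) / 2 := by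
        rw [b1 a, b2 a, b3 a, hR2, hR3]
        ring
    _ ≤ (t + 4 * η) * n ^ 3 := by
        have ht : 0 ≤ t * n ^ 3 :=
          (Finset.sum_nonneg fun x _ => mul_nonneg
            (Finset.sum_nonneg fun y _ => S.A_nonneg x y) (abs_nonneg _)).trans ha1
        have hη : 0 ≤ η * n ^ 3 :=
          (Finset.sum_nonneg fun x _ => Finset.sum_nonneg fun y _ => by
            rw [mul_one]
            exact S.A_nonneg x y).trans hone
        nlinarith

end Pool.Agent.Helper29.TC
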