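import Pool.Agent.Helper29.TC.Base

set_option autoImplicit false

/-! Ramsey supersaturation for three colours with few uncovered pairs.

Proof. `cl A 0 S = 1`, `cl A (k+1) S = ∑ v in S, cl A k (S ∩ N(v))`: number of ordered `K_k` of `A`
inside `S`; monotone in `S`; `cl A 4 univ = N4 A` (or `≤`).
Claim, by induction on `k 0 + k 1 + k 2` (k : Fin 3 → ℕ): for all `σ > 0` there are `c > 0`, `δ > 0`
such that, if the number of ordered pairs (x, y) (diagonal included) with A i x y = 0 for all
`i` is at most `δ n^2` and `|S| ≥ σ n`, then `cl (A i) (k i) S ≥ c n^(k i)` for some `i`.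
Some `k i = 0`: trivial with `c = 1`. Otherwise let `c'`, `δ'` be the minimum over `i` of the
constants of k - e_i for σ/4; take δ = min δ' (σ^2/8). At most (σ/2) n vertices v have
more than (σ/4) n uncovered partners; so for at least (σ/2) n vertices v of S some colour
`i(v)` has `|S ∩ N_i(v)| ≥ (σ/4) n`. Apply the induction hypothesis to `S ∩ N_i(v)` and
`k - e_i`: if it gives a colour `j ≠ i(v)` we are done by monotonicity; otherwise
`cl (A i) (k i - 1) (S ∩ N_i(v)) ≥ c' n^(k i - 1)` for all these `v`, some `i` is `i(v)` for at least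
(σ/6) n of them, and cl (A i) (k i) S ≥ (σ/6) c' n^(k i). -/

namespace Pool.Agent.Helper29.TC

open Finset Pool.Agent.Helper18.SF

/-- Number of ordered cliques of size `k` in `S`. -/
noncomputable def cl {V : Type} (A : V → V → ℝ) : ℕ → Finset V → ℝ
  | 0, _ => 1
  | k + 1, S => ∑ v ∈ S, cl A k (S.filter fun y => A v y = 1)

theorem cl_nonneg {V : Type} (A : V → V → ℝ) (k : ℕ) (S : Finset V) : 0 ≤ cl A k S := by
  induction k generalizing S with
  | zero => simp [cl]
  | succ k ih => exact Finset.sum_nonneg fun v _ => ih _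

theorem cl_mono {V : Type} (A : V → V → ℝ) (k : ℕ) {S T : Finset V} (h : S ⊆ T) :
    cl A k S ≤ cl A k T := by
  induction k generalizing S T with
  | zero => simp [cl]
  | succ k ih =>
    calc cl A (k + 1) S = ∑ v ∈ S, cl A k (S.filter fun y => A v y = 1) := rfl
      _ ≤ ∑ v ∈ S, cl A k (T.filter fun y => A v y = 1) :=
          Finset.sum_le_sum fun v _ => ih (Finset.filter_subset_filter _ h)
      _ ≤ ∑ v ∈ T, cl A k (T.filter fun y => A v y = 1) :=
          Finset.sum_le_sum_of_subset_of_nonneg h fun v _ _ => cl_nonneg _ _ _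

theorem sum_nb {V : Type} (A : V → V → ℝ) (h01 : ∀ x y, A x y = 0 ∨ A x y = 1) (v : V) (S : Finset V)
    (f : V → ℝ) : ∑ y ∈ S.filter (fun y => A v y = 1), f y = ∑ y ∈ S, A v y * f y := by
  rw [Finset.sum_filter]
  refine Finset.sum_congr rfl fun y _ => ?_
  rcases h01 v y with h | h
  · rw [h, if_neg (by norm_num), zero_mul]
  · rw [if_pos h, h, one_mul]

theorem cl_four {V : Type} [Fintype V] [DecidableEq V] (A : V → V → ℝ)
    (h01 : ∀ x y, A x y = 0 ∨ A x y = 1) : cl A 4 univ = N4 A := by
  unfold N4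
  simp only [cl, sum_nb A h01]
  refine Finset.sum_congr rfl fun a _ => Finset.sum_congr rfl fun b _ => ?_
  rw [Finset.mul_sum]
  refine Finset.sum_congr rfl fun c _ => ?_
  rw [Finset.mul_sum, Finset.mul_sum, Finset.mul_sum]
  exact Finset.sum_congr rfl fun d _ => by ring

/-- The uncovered partners of `v`. -/
noncomputable def unc {V : Type} [Fintype V] (A : Fin 3 → V → V → ℝ) (v : V) : Finset V :=
  univ.filter fun y => ∀ i, A i v y = 0

theorem three_le {a : ℝ} {g : Fin 3 → ℝ} (h : 3 * a ≤ ∑ i, g i) : ∃ i, a ≤ g i := by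
  by_contra hc
  push Not at hc
  have h0 := hc 0
  have h1 := hc 1
  have h2 := hc 2
  rw [Fin.sum_univ_three] at h
  linarith

theorem claim (K : ℕ) : ∀ σ : ℝ, 0 < σ → ∃ c : ℝ, 0 < c ∧ c ≤ 1 ∧ ∃ δ : ℝ, 0 < δ ∧
    ∀ (V : Type) [Fintype V] [DecidableEq V] (A : Fin 3 → V → V → ℝ),
      (∀ i x y, A i x y = 0 ∨ A i x y = 1) → ∀ (S : Finset V) (k : Fin 3 → ℕ), ∑ i, k i ≤ K →
      ∑ v, ((unc A v).card : ℝ) ≤ δ * (Fintype.card V : ℝ) ^ 2 →
      σ * (Fintype.card V : ℝ) ≤ (S.card : ℝ) →
      ∃ i, c * (Fintype.card V : ℝ) ^ (k i) ≤ cl (A i) (k i) S := by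
  induction K with
  | zero =>
    intro σ hσ
    refine ⟨1, one_pos, le_rfl, 1, one_pos, fun V _ _ A h01 S k hk _ _ => ⟨0, ?_⟩⟩
    have h0 : k 0 = 0 := by
      have := Finset.single_le_sum (f := k) (fun _ _ => Nat.zero_le _) (Finset.mem_univ 0)
      omega
    rw [h0]
    simp [cl]
  | succ K ih =>
    intro σ hσ
    obtain ⟨c', hc', hc1, δ', hδ', H⟩ := ih (σ / 4) (by positivity)
    refine ⟨min c' (σ / 6 * c'), by positivity, (min_le_left _ _).trans hc1, min δ' (σ ^ 2 / 8),
      by positivity, fun V _ _ A h01 S k hk hu hS => ?_⟩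
    set n : ℝ := (Fintype.card V : ℝ) with hn
    have hn0 : 0 ≤ n := Nat.cast_nonneg _
    set c : ℝ := min c' (σ / 6 * c') with hc
    have hcpos : 0 < c := by positivity
    by_cases hz : ∃ i, k i = 0
    · obtain ⟨i, hi⟩ := hz
      refine ⟨i, ?_⟩
      rw [hi]
      simp only [cl, pow_zero, mul_one]
      exact (min_le_left _ _).trans hc1
    push Not at hz
    rcases eq_or_lt_of_le hn0 with hn1 | hn1
    · refine ⟨0, ?_⟩
      rw [← hn1, zero_pow (hz 0), mul_zero]
      exact cl_nonneg _ _ _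
    by_cases hdone : ∃ i, c' * n ^ (k i) ≤ cl (A i) (k i) S
    · obtain ⟨i, hi⟩ := hdone
      exact ⟨i, (mul_le_mul_of_nonneg_right (min_le_left _ _) (by positivity)).trans hi⟩
    push Not at hdone
    have hu1 : ∑ v, ((unc A v).card : ℝ) ≤ δ' * n ^ 2 :=
      hu.trans (mul_le_mul_of_nonneg_right (min_le_left _ _) (by positivity))
    have hu2 : ∑ v, ((unc A v).card : ℝ) ≤ σ ^ 2 / 8 * n ^ 2 :=
      hu.trans (mul_le_mul_of_nonneg_right (min_le_right _ _) (by positivity))
    -- bad vertices
    set G : Finset V := S.filter fun v => ((unc A v).card : ℝ) ≤ σ / 4 * n with hG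
    set B : Finset V := univ.filter fun v => ¬ ((unc A v).card : ℝ) ≤ σ / 4 * n with hB
    have hBc : (B.card : ℝ) ≤ σ / 2 * n := by
      have h1 : (B.card : ℝ) * (σ / 4 * n) ≤ ∑ v, ((unc A v).card : ℝ) := by
        calc (B.card : ℝ) * (σ / 4 * n) = ∑ _v ∈ B, σ / 4 * n := by
              rw [Finset.sum_const, nsmul_eq_mul]
          _ ≤ ∑ v ∈ B, ((unc A v).card : ℝ) :=
              Finset.sum_le_sum fun v hv => (not_le.1 (Finset.mem_filter.1 hv).2).le
          _ ≤ ∑ v, ((unc A v).card : ℝ) :=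
              Finset.sum_le_sum_of_subset_of_nonneg (Finset.subset_univ _)
                fun v _ _ => Nat.cast_nonneg _
      have h2 : (B.card : ℝ) * (σ / 4 * n) ≤ (σ / 2 * n) * (σ / 4 * n) := by
        refine (h1.trans hu2).trans (le_of_eq ?_)
        ring
      exact le_of_mul_le_mul_right h2 (by positivity)
    have hSG : (S.card : ℝ) ≤ (G.card : ℝ) + (B.card : ℝ) := by
      have : S ⊆ G ∪ B := by
        intro v hv
        by_cases h : ((unc A v).card : ℝ) ≤ σ / 4 * n
        · exact Finset.mem_union_left _ (Finset.mem_filter.2 ⟨hv, h⟩)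
        · exact Finset.mem_union_right _ (Finset.mem_filter.2 ⟨Finset.mem_univ _, h⟩)
      have h1 := (Finset.card_le_card this).trans (Finset.card_union_le _ _)
      exact_mod_cast h1
    have hGc : σ / 2 * n ≤ (G.card : ℝ) := by linarith
    -- the large neighbourhoods
    have key : ∀ v ∈ G, ∃ i, σ / 4 * n ≤ ((S.filter fun y => A i v y = 1).card : ℝ) := by
      intro v hv
      apply three_le
      have h1 := (Finset.mem_filter.1 hv).2
      have h2 : S ⊆ unc A v ∪ univ.biUnion fun i => S.filter fun y => A i v y = 1 := by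
        intro y hy
        by_cases h : ∀ i, A i v y = 0
        · exact Finset.mem_union_left _ (Finset.mem_filter.2 ⟨Finset.mem_univ _, h⟩)
        · push Not at h
          obtain ⟨i, hi⟩ := h
          refine Finset.mem_union_right _ (Finset.mem_biUnion.2 ⟨i, Finset.mem_univ _, ?_⟩)
          exact Finset.mem_filter.2 ⟨hy, (h01 i v y).resolve_left hi⟩
      have h3 : S.card ≤ (unc A v).card + ∑ i, (S.filter fun y => A i v y = 1).card :=
        (Finset.card_le_card h2).trans ((Finset.card_union_le _ _).trans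
          (Nat.add_le_add_left Finset.card_biUnion_le _))
      have h4 : (S.card : ℝ) ≤ ((unc A v).card : ℝ) +
          ∑ i, ((S.filter fun y => A i v y = 1).card : ℝ) := by exact_mod_cast h3
      linarith
    have key2 : ∀ v ∈ G, ∃ i, c' * n ^ (k i - 1) ≤
        cl (A i) (k i - 1) (S.filter fun y => A i v y = 1) := by
      intro v hv
      obtain ⟨i, hi⟩ := key v hv
      have hsum : ∑ j, Function.update k i (k i - 1) j ≤ K := by
        rw [Finset.sum_update_of_mem (Finset.mem_univ i)]
        have h1 := Finset.add_sum_erase univ k (Finset.mem_univ i)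
        rw [← Finset.sdiff_singleton_eq_erase] at h1
        have h2 := hz i
        omega
      obtain ⟨j, hj⟩ := H V A h01 (S.filter fun y => A i v y = 1) (Function.update k i (k i - 1))
        hsum hu1 hi
      by_cases hji : j = i
      · subst hji
        rw [Function.update_self] at hj
        exact ⟨j, hj⟩
      · rw [Function.update_of_ne hji] at hj
        exact absurd (hj.trans (cl_mono _ _ (Finset.filter_subset _ _))) (not_le.2 (hdone j))
    -- one colour is frequent
    set T : Fin 3 → Finset V := fun i => G.filter fun v => c' * n ^ (k i - 1) ≤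
        cl (A i) (k i - 1) (S.filter fun y => A i v y = 1) with hT
    have hTG : (G.card : ℝ) ≤ ∑ i, ((T i).card : ℝ) := by
      have h2 : G ⊆ univ.biUnion T := by
        intro v hv
        obtain ⟨i, hi⟩ := key2 v hv
        exact Finset.mem_biUnion.2 ⟨i, Finset.mem_univ _, Finset.mem_filter.2 ⟨hv, hi⟩⟩
      have h3 : G.card ≤ ∑ i, (T i).card := (Finset.card_le_card h2).trans Finset.card_biUnion_le
      exact_mod_cast h3
    obtain ⟨i, hi⟩ : ∃ i, σ / 6 * n ≤ ((T i).card : ℝ) := by
      apply three_le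
      linarith
    refine ⟨i, ?_⟩
    obtain ⟨m, hm⟩ : ∃ m, k i = m + 1 := ⟨k i - 1, by have := hz i; omega⟩
    have hm1 : k i - 1 = m := by omega
    rw [hm]
    calc c * n ^ (m + 1) ≤ (σ / 6 * c') * n ^ (m + 1) :=
          mul_le_mul_of_nonneg_right (min_le_right _ _) (by positivity)
      _ = (σ / 6 * n) * (c' * n ^ m) := by ring
      _ ≤ ((T i).card : ℝ) * (c' * n ^ m) := mul_le_mul_of_nonneg_right hi (by positivity)
      _ = ∑ _v ∈ T i, c' * n ^ m := by rw [Finset.sum_const, nsmul_eq_mul]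
      _ ≤ ∑ v ∈ T i, cl (A i) m (S.filter fun y => A i v y = 1) := by
          refine Finset.sum_le_sum fun v hv => ?_
          have := (Finset.mem_filter.1 hv).2
          rwa [hm1] at this
      _ ≤ ∑ v ∈ S, cl (A i) m (S.filter fun y => A i v y = 1) := by
          refine Finset.sum_le_sum_of_subset_of_nonneg ?_ fun v _ _ => cl_nonneg _ _ _
          exact (Finset.filter_subset _ _).trans (Finset.filter_subset _ _)
      _ = cl (A i) (m + 1) S := rfl

theorem ramsey_sat : ∃ c : ℝ, 0 < c ∧ ∃ δ : ℝ, 0 < δ ∧ ∃ N : ℕ,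
    ∀ (V : Type) [Fintype V] [DecidableEq V], N ≤ Fintype.card V →
    ∀ A : Fin 3 → V → V → ℝ, (∀ i x y, A i x y = 0 ∨ A i x y = 1) →
      (∀ i x y, A i x y = A i y x) → (∀ i x, A i x x = 0) → (∀ x y, ∑ i, A i x y ≤ 1) →
      (1 - δ) * (Fintype.card V : ℝ) ^ 2 ≤ ∑ i, ∑ x, ∑ y, A i x y →
      c * (Fintype.card V : ℝ) ^ 4 ≤ ∑ i, N4 (A i) := by
  obtain ⟨c, hc, _, δ, hδ, H⟩ := claim 12 1 one_pos
  refine ⟨c, hc, δ, hδ, 0, fun V _ _ _ A h01 _ _ hle hsum => ?_⟩
  have hunc : ∑ v, ((unc A v).card : ℝ) ≤ δ * (Fintype.card V : ℝ) ^ 2 := by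
    have h1 : ∑ v, ((unc A v).card : ℝ) + ∑ i, ∑ x, ∑ y, A i x y ≤ (Fintype.card V : ℝ) ^ 2 := by
      have e1 : ∑ i, ∑ x, ∑ y, A i x y = ∑ x, ∑ y, ∑ i, A i x y := by
        rw [Finset.sum_comm]
        exact Finset.sum_congr rfl fun x _ => Finset.sum_comm
      rw [e1, ← Finset.sum_add_distrib]
      calc ∑ v, (((unc A v).card : ℝ) + ∑ y, ∑ i, A i v y)
          = ∑ v, ∑ y, ((if ∀ i, A i v y = 0 then (1 : ℝ) else 0) + ∑ i, A i v y) := by
            refine Finset.sum_congr rfl fun v _ => ?_
            rw [Finset.sum_add_distrib]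
            congr 1
            unfold unc
            rw [Finset.card_filter]
            push_cast
            rfl
        _ ≤ ∑ _v : V, ∑ _y : V, (1 : ℝ) := by
            refine Finset.sum_le_sum fun v _ => Finset.sum_le_sum fun y _ => ?_
            split_ifs with h
            · rw [Finset.sum_eq_zero fun i _ => h i]
              norm_num
            · rw [zero_add]
              exact hle v y
        _ = (Fintype.card V : ℝ) ^ 2 := by
            simp only [Finset.sum_const, Finset.card_univ, nsmul_eq_mul]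
            ring
    linarith
  obtain ⟨i, hi⟩ := H V A h01 univ (fun _ => 4) (by simp) hunc (by rw [Finset.card_univ, one_mul])
  rw [cl_four (A i) (h01 i)] at hi
  refine hi.trans (Finset.single_le_sum (f := fun i => N4 (A i)) (fun j _ => ?_) (Finset.mem_univ i))
  show 0 ≤ N4 (A j)
  rw [← cl_four (A j) (h01 j)]
  exact cl_nonneg _ _ _

end Pool.Agent.Helper29.TC
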